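import Mathlib
import Pool.Agent.Mg.S19600.G3216b3

set_option autoImplicit false

open Finset Filter Topology MeasureTheory ProbabilityTheory Real
open scoped NNReal ENNReal

namespace Pool.Agent.MP_ba6658_pr.Log

/-- The quadratic form of a matrix. -/
def qf {n : ℕ} (M : Fin n → Fin n → ℝ) (ξ : Fin n → ℝ) : ℝ := ∑ i, ∑ j, M i j * ξ i * ξ j

lemma lint_cons_eq {n : ℕ} (μ : Measure ℝ) [IsProbabilityMeasure μ]
    (f : (Fin (n + 1) → ℝ) → ℝ≥0∞) :
    ∫⁻ u, f u ∂(Measure.pi fun _ => μ)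
      = ∫⁻ z : ℝ × (Fin n → ℝ), f (Fin.cons z.1 z.2) ∂(μ.prod (Measure.pi fun _ => μ)) := by
  have h := (measurePreserving_piFinSuccAbove (fun _ : Fin (n + 1) => μ) 0).symm
  rw [← h.lintegral_comp_emb (MeasurableEquiv.measurableEmbedding _)]
  refine lintegral_congr fun z => ?_
  simp [MeasurableEquiv.piFinSuccAbove_symm_apply, Fin.insertNthEquiv]

lemma lint_cons_le {n : ℕ} (μ : Measure ℝ) [IsProbabilityMeasure μ]
    (f : (Fin (n + 1) → ℝ) → ℝ≥0∞) :
    ∫⁻ u, f u ∂(Measure.pi fun _ => μ)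
      ≤ ∫⁻ x, ∫⁻ w : Fin n → ℝ, f (Fin.cons x w) ∂(Measure.pi fun _ => μ) ∂μ := by
  rw [lint_cons_eq]
  exact lintegral_prod_le _

lemma lint_cons_le' {n : ℕ} (μ : Measure ℝ) [IsProbabilityMeasure μ]
    (f : (Fin (n + 1) → ℝ) → ℝ≥0∞) :
    ∫⁻ u, f u ∂(Measure.pi fun _ => μ)
      ≤ ∫⁻ w : Fin n → ℝ, ∫⁻ x, f (Fin.cons x w) ∂μ ∂(Measure.pi fun _ => μ) := by
  rw [lint_cons_eq, ← lintegral_prod_swap]
  exact lintegral_prod_le _

lemma qf_cons {n : ℕ} (M : Fin (n + 1) → Fin (n + 1) → ℝ) (hs : ∀ i j, M i j = M j i)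
    (h0 : M 0 0 ≠ 0) (x : ℝ) (η : Fin n → ℝ) :
    qf M (Fin.cons x η) = M 0 0 * (x + (∑ j, M 0 j.succ * η j) / M 0 0) ^ 2
      + qf (fun i j : Fin n => M i.succ j.succ - M 0 i.succ * M 0 j.succ / M 0 0) η := by
  have e1 : qf (fun i j : Fin n => M i.succ j.succ - M 0 i.succ * M 0 j.succ / M 0 0) η
      = (∑ i, ∑ j, M i.succ j.succ * η i * η j) - (∑ j, M 0 j.succ * η j) ^ 2 / M 0 0 := by
    unfold qf
    rw [pow_two, sum_mul_sum, sum_div, ← sum_sub_distrib]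
    refine sum_congr rfl fun i _ => ?_
    rw [sum_div, ← sum_sub_distrib]
    refine sum_congr rfl fun j _ => by ring
  rw [e1]
  unfold qf
  simp only [Fin.sum_univ_succ, Fin.cons_zero, Fin.cons_succ, sum_add_distrib]
  have e2 : ∑ j : Fin n, M 0 j.succ * x * η j = x * ∑ j, M 0 j.succ * η j := by
    rw [mul_sum]; exact sum_congr rfl fun j _ => by ring
  have e3 : ∑ j : Fin n, M j.succ 0 * η j * x = x * ∑ j, M 0 j.succ * η j := by
    rw [mul_sum]; exact sum_congr rfl fun j _ => by rw [hs]; ring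
  rw [e2, e3]
  field_simp
  ring

lemma gauss_upper_l {v : ℝ≥0} (hv : v ≠ 0) {A : ℝ} (hA : 0 < A) (m : ℝ) :
    ∫⁻ x, ENNReal.ofReal (exp (-(A * (x + m) ^ 2) / 2)) ∂(gaussianReal 0 v)
      ≤ ENNReal.ofReal (√(v * A))⁻¹ := by
  rw [← ofReal_integral_eq_lintegral_ofReal]
  · exact ENNReal.ofReal_le_ofReal (gauss_upper hv hA m)
  · exact integrable_unit _ (by fun_prop) (fun x => (exp_pos _).le)
      (fun x => exp_neg_le_one (by positivity))
  · exact Eventually.of_forall fun x => (exp_pos _).le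

/-- Gaussian integral of a form whose successive conditional variances are bounded below. -/
lemma gauss_tri {v : ℝ≥0} (hv : v ≠ 0) : ∀ (n : ℕ) (M : Fin n → Fin n → ℝ) (V : Fin n → ℝ),
    (∀ i j, M i j = M j i) → (∀ i, 0 < V i) →
    (∀ i ξ, (∀ l, i < l → ξ l = 0) → V i * ξ i ^ 2 ≤ qf M ξ) →
    ∫⁻ ξ, ENNReal.ofReal (exp (-qf M ξ / 2)) ∂(Measure.pi fun _ => gaussianReal 0 v)
      ≤ ∏ i, ENNReal.ofReal (√(v * V i))⁻¹ := by
  intro n
  induction n with
  | zero => intro M V _ _ _; simp [qf]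
  | succ n ih =>
    intro M V hs hV h
    have h00 : V 0 ≤ M 0 0 := by
      have := h 0 (Fin.cons 1 0) (fun l hl => by
        obtain ⟨j, rfl⟩ := Fin.exists_succ_eq.2 hl.ne'
        simp)
      simpa [qf, Fin.sum_univ_succ] using this
    have hM : 0 < M 0 0 := (hV 0).trans_le h00
    set M' : Fin n → Fin n → ℝ :=
      fun i j => M i.succ j.succ - M 0 i.succ * M 0 j.succ / M 0 0 with hM'
    have ih' := ih M' (fun i => V i.succ) (fun i j => by simp only [hM']; rw [hs i.succ]; ring)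
      (fun i => hV _) (fun i η hη => by
        have h1 := h i.succ (Fin.cons (-((∑ j, M 0 j.succ * η j) / M 0 0)) η) (fun l hl => by
          obtain ⟨j, rfl⟩ := Fin.exists_succ_eq.2 (Fin.ne_zero_of_lt hl)
          simp only [Fin.cons_succ]
          exact hη j (Fin.succ_lt_succ_iff.1 hl))
        rw [qf_cons M hs hM.ne'] at h1
        simpa using h1)
    refine (lint_cons_le' _ _).trans ?_
    rw [Fin.prod_univ_succ]
    refine le_trans (lintegral_mono fun η => ?_)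
      ((lintegral_const_mul' _ _ ENNReal.ofReal_ne_top).trans_le (mul_le_mul_right ih' _))
    have e : ∀ x : ℝ, ENNReal.ofReal (exp (-qf M (Fin.cons x η) / 2))
        = ENNReal.ofReal (exp (-(M 0 0 * (x + (∑ j, M 0 j.succ * η j) / M 0 0) ^ 2) / 2))
          * ENNReal.ofReal (exp (-qf M' η / 2)) := by
      intro x
      rw [qf_cons M hs hM.ne', ← ENNReal.ofReal_mul (exp_pos _).le, ← exp_add]
      congr 2
      ring
    simp_rw [e]
    rw [lintegral_mul_const' _ _ ENNReal.ofReal_ne_top]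
    refine mul_le_mul_left ((gauss_upper_l hv hM _).trans (ENNReal.ofReal_le_ofReal ?_)) _
    have hv0 : (0 : ℝ) < v := by positivity
    exact inv_anti₀ (sqrt_pos.2 (mul_pos hv0 (hV 0)))
      (sqrt_le_sqrt (mul_le_mul_of_nonneg_left h00 hv0.le))

/-- Integrating the gaps one after the other. -/
lemma seq_bound (μ : Measure ℝ) [IsProbabilityMeasure μ] : ∀ (n : ℕ) (G : Fin n → ℝ → ℝ)
    (F : Fin n → ℝ → ℝ → ℝ) (C : Fin n → ℝ),
    (∀ i p, ∫⁻ u, ENNReal.ofReal (F i p u) ∂μ ≤ ENNReal.ofReal (C i)) → ∀ p0 : ℝ,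
    ∫⁻ u : Fin n → ℝ, ∏ i, ENNReal.ofReal
        (F i (p0 + Fin.partialSum (fun l => G l (u l)) i.castSucc) (u i))
        ∂(Measure.pi fun _ => μ) ≤ ∏ i, ENNReal.ofReal (C i) := by
  intro n
  induction n with
  | zero => intro G F C _ _; simp
  | succ n ih =>
    intro G F C h p0
    refine (lint_cons_le _ _).trans ?_
    rw [Fin.prod_univ_succ]
    have hne : ∏ i : Fin n, ENNReal.ofReal (C i.succ) ≠ ∞ :=
      ENNReal.prod_ne_top fun i _ => ENNReal.ofReal_ne_top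
    refine le_trans (lintegral_mono fun x => ?_)
      ((lintegral_mul_const' _ _ hne).trans_le (mul_le_mul_left (h 0 p0) _))
    have ih' := ih (fun l => G l.succ) (fun i => F i.succ) (fun i => C i.succ)
      (fun i p => h i.succ p) (p0 + G 0 x)
    refine le_trans (le_of_eq ?_) ((lintegral_const_mul' _ _ ENNReal.ofReal_ne_top).trans_le
      (mul_le_mul_right ih' _))
    refine lintegral_congr fun w => ?_
    rw [Fin.prod_univ_succ]
    congr 1
    · simp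
    · refine prod_congr rfl fun i _ => ?_
      rw [← Fin.succ_castSucc, Fin.partialSum_succ', add_assoc]
      rfl

lemma cnt_mult {N : ℕ} (S : Finset (Fin N)) {d : ℕ} (hd : 0 < d) (c n1 : ℕ)
    (h : ∀ m ∈ S, d ∣ m.1 ∧ n1 ≤ m.1 ∧ m.1 < n1 + c * d) : #S ≤ c := by
  have key : ∀ a ∈ S, ∀ b ∈ S, a.1 < b.1 → (a.1 - n1) / d < (b.1 - n1) / d := by
    intro a ha b hb hab
    obtain ⟨⟨x, hx⟩, h1, -⟩ := h a ha
    obtain ⟨⟨y, hy⟩, -, -⟩ := h b hb
    have h2 : x < y := by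
      by_contra hc
      have := Nat.mul_le_mul_left d (not_lt.1 hc)
      omega
    have h3 := Nat.mul_le_mul_left d (show x + 1 ≤ y from h2)
    rw [mul_add, mul_one] at h3
    have h4 : (a.1 - n1 + d) / d ≤ (b.1 - n1) / d := Nat.div_le_div_right (by omega)
    rw [Nat.add_div_right _ hd] at h4
    exact h4
  refine (card_le_card_of_injOn (t := range c) (fun m => (m.1 - n1) / d) (fun m hm => ?_)
    (fun a ha b hb hab => ?_)).trans (card_range c).le
  · obtain ⟨-, h1, h2⟩ := h m hm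
    simp only [coe_range, Set.mem_Iio]
    rw [Nat.div_lt_iff_lt_mul hd]
    omega
  · rcases lt_trichotomy a.1 b.1 with h1 | h1 | h1
    · exact absurd hab (key a ha b hb h1).ne
    · exact Fin.ext h1
    · exact absurd hab (key b hb a ha h1).ne'

/-- Counting properties of the levels of the gaps of a binary tree read from left to right. -/
def IsTree {N : ℕ} (ℓ : Fin N → ℕ) : Prop :=
  (∀ i, #{m | ℓ m = i} ≤ 2 ^ i) ∧ ∀ (j : ℕ) (m1 m2 : Fin N),
    (∀ m, m1 < m → m < m2 → j ≤ ℓ m) → ∀ i, #{m ∈ Ioo m1 m2 | ℓ m = i} ≤ 2 ^ (i + 1 - j)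

lemma tree_idx (k : ℕ) : ∃ idx : (ℕ → Bool) → ℕ, (∀ w, idx w < 2 ^ k) ∧
    ∀ w w' j, j < k → w j ≠ w' j → ∃ n, 2 ^ (k - (j + 1)) ∣ n ∧
      ((idx w < n ∧ n ≤ idx w') ∨ (idx w' < n ∧ n ≤ idx w)) := by
  induction k with
  | zero => exact ⟨fun _ => 0, by simp, by simp⟩
  | succ k ih =>
    obtain ⟨idx, hi, hsep⟩ := ih
    refine ⟨fun w => (if w 0 then 2 ^ k else 0) + idx (fun j => w (j + 1)), fun w => ?_,
      fun w w' j hj hw => ?_⟩
    · have := hi (fun j => w (j + 1))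
      rw [pow_succ]
      dsimp only
      split_ifs <;> omega
    · have h1 := hi (fun j => w (j + 1))
      have h2 := hi (fun j => w' (j + 1))
      have hd : 2 ^ (k + 1 - (j + 1)) ∣ 2 ^ k := pow_dvd_pow 2 (by omega)
      by_cases h : w 0 = w' 0
      · obtain ⟨j, rfl⟩ : ∃ j', j = j' + 1 := by
          cases j with
          | zero => exact absurd h hw
          | succ j => exact ⟨j, rfl⟩
        obtain ⟨n, hn, hn'⟩ := hsep (fun j => w (j + 1)) (fun j => w' (j + 1)) j (by omega) hw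
        refine ⟨(if w 0 then 2 ^ k else 0) + n, ?_, ?_⟩
        · refine dvd_add ?_ (by rwa [show k + 1 - (j + 1 + 1) = k - (j + 1) by omega])
          split_ifs
          · exact hd
          · exact dvd_zero _
        · simp only [← h]
          omega
      · refine ⟨2 ^ k, hd, ?_⟩
        cases hw0 : w 0 <;> cases hw1 : w' 0 <;> simp_all

lemma tree (k : ℕ) : ∃ (ℓ : ℕ → ℕ) (idx : (ℕ → Bool) → ℕ), ℓ 0 = 0 ∧
    IsTree (fun m : Fin (2 ^ k) => ℓ m) ∧ (∀ w, idx w < 2 ^ k) ∧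
    ∀ w w' j, j < k → w j ≠ w' j → ∃ n, ℓ n ≤ j + 1 ∧
      ((idx w < n ∧ n ≤ idx w') ∨ (idx w' < n ∧ n ≤ idx w)) := by
  classical
  obtain ⟨idx, hi, hsep⟩ := tree_idx k
  have hex : ∀ n : ℕ, ∃ i, 2 ^ (k - i) ∣ n := fun n => ⟨k, by simp⟩
  have h1 : ∀ n i, 2 ^ (k - i) ∣ n → Nat.find (hex n) ≤ i := fun n i h => Nat.find_min' _ h
  have h2 : ∀ n i, Nat.find (hex n) = i → 2 ^ (k - i) ∣ n := fun n i h =>
    h ▸ Nat.find_spec (hex n)
  refine ⟨fun n => Nat.find (hex n), idx, Nat.le_zero.1 (h1 0 0 (dvd_zero _)), ⟨fun i => ?_,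
    fun j m1 m2 h i => ?_⟩, hi, fun w w' j hj hw => ?_⟩
  · refine cnt_mult _ (d := 2 ^ (k - i)) (by positivity) _ 0 fun m hm => ?_
    refine ⟨h2 _ _ (mem_filter.1 hm).2, Nat.zero_le _, m.2.trans_le ?_⟩
    rw [zero_add, ← pow_add]
    exact Nat.pow_le_pow_right (by norm_num) (by omega)
  · refine cnt_mult _ (d := 2 ^ (k - i)) (by positivity) _ (m1.1 + 1) fun m hm => ?_
    obtain ⟨h3, h4⟩ := mem_filter.1 hm
    obtain ⟨h5, h6⟩ := mem_Ioo.1 h3
    refine ⟨h2 _ _ h4, h5, ?_⟩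
    rw [← pow_add]
    rcases Nat.eq_zero_or_pos j with rfl | hj
    · have : 2 ^ k ≤ 2 ^ (i + 1 - 0 + (k - i)) := Nat.pow_le_pow_right (by norm_num) (by omega)
      have := m.2
      omega
    · have h7 : 2 ^ (k - (j - 1)) ≤ 2 ^ (i + 1 - j + (k - i)) :=
        Nat.pow_le_pow_right (by norm_num) (by omega)
      by_contra hc
      set D := 2 ^ (k - (j - 1)) with hD
      have hD0 : 0 < D := by positivity
      have h8 := Nat.lt_div_mul_add (a := m1.1) hD0
      have h9 := Nat.div_mul_le_self m1.1 D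
      have h10 : m1.1 / D * D + D < 2 ^ k := by have := m.2; omega
      have h11 := h ⟨m1.1 / D * D + D, h10⟩ (by rw [Fin.lt_def]; exact h8)
        (lt_trans (by rw [Fin.lt_def]; simp only; omega) h6)
      have h12 := h1 (m1.1 / D * D + D) (j - 1) (dvd_add (dvd_mul_left _ _) dvd_rfl)
      simp only at h11
      omega
  · obtain ⟨n, hn, hn'⟩ := hsep w w' j hj hw
    exact ⟨n, h1 _ _ hn, hn'⟩

lemma sum_by_level {N : ℕ} (ℓ : Fin N → ℕ) (S : Finset (Fin N)) (c : ℕ → ℝ) (hc : ∀ i, 0 ≤ c i)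
    (cnt : ℕ → ℕ) (h : ∀ i, #{m ∈ S | ℓ m = i} ≤ cnt i) :
    ∑ m ∈ S, c (ℓ m) ≤ ∑ i ∈ S.image ℓ, cnt i * c i := by
  rw [sum_comp c ℓ]
  refine sum_le_sum fun i _ => ?_
  rw [nsmul_eq_mul]
  exact mul_le_mul_of_nonneg_right (by exact_mod_cast h i) (hc i)

lemma sum_inv_sq (T : Finset ℕ) : ∑ i ∈ T, (1 : ℝ) / ((i : ℝ) + 1) ^ 2 ≤ 2 := by
  have h : ∀ n : ℕ, ∑ i ∈ range n, (1 : ℝ) / ((i : ℝ) + 1) ^ 2 ≤ 2 - 2 / (2 * (n : ℝ) + 1) := by
    intro n
    induction n with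
    | zero => simp
    | succ n ih =>
      rw [sum_range_succ]
      have h0 : (0 : ℝ) ≤ n := Nat.cast_nonneg n
      have : 1 / ((n : ℝ) + 1) ^ 2 ≤ 2 / (2 * n + 1) - 2 / (2 * ((n + 1 : ℕ) : ℝ) + 1) := by
        push_cast
        rw [div_sub_div _ _ (by positivity) (by positivity),
          div_le_div_iff₀ (by positivity) (by positivity)]
        nlinarith
      linarith
  obtain ⟨n, hn⟩ := T.exists_nat_subset_range
  refine (sum_le_sum_of_subset_of_nonneg hn fun i _ _ => by positivity).trans ((h n).trans ?_)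
  have : (0 : ℝ) ≤ 2 / (2 * n + 1) := by positivity
  linarith

/-- Compactness: without a limiting tree of zeros, finite trees stay away from zero. -/
lemma compact_gap (f : Fin 2 → ℝ × ℝ → ℝ) (hf : ∀ i, Continuous (f i)) (Y δ : ℝ) (sep : ℕ → ℝ)
    (h : ¬ ∃ y ∈ Set.Icc (0 : ℝ) Y, ∃ t : (ℕ → Bool) → ℝ, (∀ w, t w ∈ Set.Icc δ 2) ∧
      (∀ w w' j, w j ≠ w' j → sep j ≤ |t w - t w'|) ∧ ∀ w i, f i (y, t w) = 0) :
    ∃ n : ℕ, ∀ y ∈ Set.Icc (0 : ℝ) Y, ∀ t : (ℕ → Bool) → ℝ, (∀ w, t w ∈ Set.Icc δ 2) →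
      (∀ w w' j, j < n → w j ≠ w' j → sep j ≤ |t w - t w'|) →
      ∃ w i, 1 / ((n : ℝ) + 1) < f i (y, t w) ^ 2 := by
  by_contra hc
  push Not at hc
  apply h
  set K : Set (ℝ × ((ℕ → Bool) → ℝ)) :=
    Set.Icc (0 : ℝ) Y ×ˢ Set.pi Set.univ (fun _ => Set.Icc δ 2) with hK
  have hKc : IsCompact K := isCompact_Icc.prod (isCompact_univ_pi fun _ => isCompact_Icc)
  set D : ℕ → Set (ℝ × ((ℕ → Bool) → ℝ)) := fun n =>
    {z | (∀ w w' j, j < n → w j ≠ w' j → sep j ≤ |z.2 w - z.2 w'|) ∧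
      ∀ w i, f i (z.1, z.2 w) ^ 2 ≤ 1 / ((n : ℝ) + 1)} with hD
  have hDc : ∀ n, IsClosed (D n) := by
    intro n
    simp only [hD, Set.ofPred_and, Set.ofPred_forall]
    refine IsClosed.inter ?_ ?_
    · refine isClosed_iInter fun w => isClosed_iInter fun w' => isClosed_iInter fun j =>
        isClosed_iInter fun _ => isClosed_iInter fun _ => isClosed_le continuous_const ?_
      fun_prop
    · refine isClosed_iInter fun w => isClosed_iInter fun i => isClosed_le ?_ continuous_const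
      have := hf i
      fun_prop
  obtain ⟨z, hz⟩ := IsCompact.nonempty_iInter_of_sequence_nonempty_isCompact_isClosed
    (fun n => K ∩ D n) (fun n z hz => ⟨hz.1, fun w w' j hj => hz.2.1 w w' j (by omega),
      fun w i => (hz.2.2 w i).trans (by
        push_cast
        exact one_div_le_one_div_of_le (by positivity) (by linarith))⟩)
    (fun n => by
      obtain ⟨y, hy, t, h1, h2, h3⟩ := hc n
      exact ⟨(y, t), ⟨hy, fun w _ => h1 w⟩, h2, h3⟩)
    (hKc.inter_right (hDc 0)) (fun n => hKc.isClosed.inter (hDc n))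
  rw [Set.mem_iInter] at hz
  refine ⟨z.1, (hz 0).1.1, z.2, fun w => (hz 0).1.2 w trivial,
    fun w w' j hw => (hz (j + 1)).2.1 w w' j (by omega) hw, fun w i => ?_⟩
  have h1 : f i (z.1, z.2 w) ^ 2 ≤ 0 :=
    ge_of_tendsto' tendsto_one_div_add_atTop_nhds_zero_nat (fun n => (hz n).2.2 w i)
  exact pow_eq_zero_iff (two_ne_zero) |>.1 (le_antisymm h1 (sq_nonneg _))

end Pool.Agent.MP_ba6658_pr.Log
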