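import Mathlib
import Pool.Agent.MP_ba6658_pr.Log.A

set_option autoImplicit false

open Finset Filter Topology MeasureTheory ProbabilityTheory Real
open scoped NNReal ENNReal

namespace Pool.Agent.MP_ba6658_pr.Log

/-- Length, in logarithmic time, of the window of a gap of level `j`. -/
noncomputable def aw (j : ℕ) : ℝ := 256 * 2 ^ j * ((j : ℝ) + 1) ^ 3

lemma aw_pos (j : ℕ) : 0 < aw j := by unfold aw; positivity

lemma aw_pow {i j : ℕ} (n : ℕ) (h : i + n ≤ j) : 2 ^ n * aw i ≤ aw j := by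
  unfold aw
  have h1 : (2 : ℝ) ^ (i + n) ≤ 2 ^ j := pow_le_pow_right₀ (by norm_num) h
  have h2 : ((i : ℝ) + 1) ^ 3 ≤ ((j : ℝ) + 1) ^ 3 :=
    pow_le_pow_left₀ (by positivity) (by exact_mod_cast (by omega : i + 1 ≤ j + 1)) 3
  calc (2 : ℝ) ^ n * (256 * 2 ^ i * ((i : ℝ) + 1) ^ 3) = 256 * (2 ^ (i + n) * ((i : ℝ) + 1) ^ 3) := by
        ring
    _ ≤ 256 * (2 ^ j * ((j : ℝ) + 1) ^ 3) :=
        mul_le_mul_of_nonneg_left (mul_le_mul h1 h2 (by positivity) (by positivity)) (by norm_num)
    _ = _ := by ring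

lemma aw_mono {i j : ℕ} (h : i ≤ j) : aw i ≤ aw j := by simpa using aw_pow 0 h

lemma aw_ge (j : ℕ) : (2 : ℝ) ^ j * ((j : ℝ) + 1) ^ 2 ≤ aw j := by
  unfold aw
  have h1 : ((j : ℝ) + 1) ^ 2 ≤ ((j : ℝ) + 1) ^ 3 :=
    pow_le_pow_right₀ (by linarith [Nat.cast_nonneg (α := ℝ) j]) (by norm_num)
  have h2 : (0 : ℝ) ≤ 2 ^ j * ((j : ℝ) + 1) ^ 3 := by positivity
  have h3 := mul_le_mul_of_nonneg_left h1 (show (0 : ℝ) ≤ 2 ^ j by positivity)
  linarith

/-- Weight of a gap of level `j`. -/
noncomputable def wt (j : ℕ) : ℝ := 1 / (2 ^ j * ((j : ℝ) + 1) ^ 2)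

lemma wt_pos (j : ℕ) : 0 < wt j := by unfold wt; positivity

lemma sum_wt {N : ℕ} {ℓ : Fin N → ℕ} (h : IsTree ℓ) : ∑ m, wt (ℓ m) ≤ 2 := by
  refine (sum_by_level ℓ univ wt (fun i => (wt_pos i).le) _ h.1).trans
    (le_trans (le_of_eq (sum_congr rfl fun i _ => ?_)) (sum_inv_sq (univ.image ℓ)))
  unfold wt
  push_cast
  field_simp

lemma exp_aw_le (j : ℕ) : exp (-aw j) ≤ wt j := by
  unfold wt
  rw [exp_neg, one_div]
  exact inv_anti₀ (by positivity) (by linarith [add_one_le_exp (aw j), aw_ge j])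

/-- Fair coin tossing. -/
noncomputable def coin : Measure (ℕ → Bool) :=
  Measure.infinitePi (fun _ : ℕ => (uniformOn Set.univ : Measure Bool))

instance : IsProbabilityMeasure coin := by unfold coin; infer_instance

lemma coin_cyl (w0 : ℕ → Bool) (j : ℕ) (S : Set (ℕ → Bool))
    (hS : ∀ w ∈ S, ∀ i < j, w i = w0 i) : coin S ≤ ENNReal.ofReal ((1 / 2) ^ j) := by
  have h1 : S ⊆ Set.pi (range j : Finset ℕ) (fun i => {w0 i}) := by
    intro w hw i hi
    exact hS w hw i (by simpa using hi)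
  refine (measure_mono h1).trans (le_of_eq ?_)
  unfold coin
  rw [Measure.infinitePi_pi _ (fun i _ => measurableSet_singleton _)]
  simp only [uniformOn_univ, Measure.count_singleton, Fintype.card_bool, prod_const, card_range]
  rw [ENNReal.ofReal_pow (by norm_num), ENNReal.ofReal_div_of_pos (by norm_num)]
  simp

lemma coin_small (t : (ℕ → Bool) → ℝ)
    (hsep : ∀ w w' j, w j ≠ w' j → exp (-(2 * aw (j + 1))) ≤ |t w - t w'|) (s : Set ℝ) (D : ℝ)
    (hD : ∀ x ∈ s, ∀ y ∈ s, |x - y| ≤ D) (j : ℕ) (hj : D < exp (-(2 * aw (j + 1)))) :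
    coin (t ⁻¹' s) ≤ ENNReal.ofReal ((1 / 2) ^ (j + 1)) := by
  rcases (t ⁻¹' s).eq_empty_or_nonempty with h | ⟨w0, hw0⟩
  · simp [h]
  refine coin_cyl w0 _ _ fun w hw i hi => ?_
  by_contra hne
  have h1 := hsep w w0 i hne
  have h2 := hD _ hw _ hw0
  have h3 : exp (-(2 * aw (j + 1))) ≤ exp (-(2 * aw (i + 1))) := by
    rw [exp_le_exp]
    have := aw_mono (show i + 1 ≤ j + 1 by omega)
    linarith
  linarith

lemma coin_zero (t : (ℕ → Bool) → ℝ)
    (hsep : ∀ w w' j, w j ≠ w' j → exp (-(2 * aw (j + 1))) ≤ |t w - t w'|) (s : Set ℝ)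
    (hD : ∀ x ∈ s, ∀ y ∈ s, |x - y| ≤ 0) : coin (t ⁻¹' s) = 0 := by
  have h1 : Tendsto (fun j : ℕ => ENNReal.ofReal ((1 / 2 : ℝ) ^ (j + 1))) atTop (𝓝 0) := by
    have h2 : Tendsto (fun j : ℕ => (1 / 2 : ℝ) ^ (j + 1)) atTop (𝓝 0) :=
      (tendsto_pow_atTop_nhds_zero_of_lt_one (by norm_num) (by norm_num)).comp
        (tendsto_add_atTop_nat 1)
    simpa using ENNReal.tendsto_ofReal h2
  exact le_antisymm (ge_of_tendsto' h1 fun j => coin_small t hsep s 0 hD j (exp_pos _)) zero_le

/-- Mass distribution on a separated tree of points. -/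
lemma mass (t : (ℕ → Bool) → ℝ)
    (hsep : ∀ w w' j, w j ≠ w' j → exp (-(2 * aw (j + 1))) ≤ |t w - t w'|) (Z : Set ℝ)
    (hZ : ∀ w, t w ∈ Z) :
    0 < (Measure.mkMetric
      (fun r : ℝ≥0∞ => ENNReal.ofReal (log (log (1 / r.toReal)) ^ 3 / log (1 / r.toReal))) :
        Measure ℝ) Z ∧
    ¬ Z.Countable := by
  have hu : t ⁻¹' Z = Set.univ := Set.eq_univ_of_forall hZ
  constructor
  · have h := OuterMeasure.le_mkMetric
      (fun r : ℝ≥0∞ => ENNReal.ofReal (log (log (1 / r.toReal)) ^ 3 / log (1 / r.toReal)))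
      ((ENNReal.ofReal (1 / 8192)) • OuterMeasure.map t coin.toOuterMeasure)
      (ENNReal.ofReal (exp (-(2 * aw 1)) / 2)) (by simp; positivity) (fun s hs => by
        have hne : Metric.ediam s ≠ ∞ := ne_top_of_le_ne_top ENNReal.ofReal_ne_top hs
        set D := (Metric.ediam s).toReal with hD
        have hD0 : 0 ≤ D := ENNReal.toReal_nonneg
        have hD1 : D ≤ exp (-(2 * aw 1)) / 2 :=
          ENNReal.toReal_le_of_le_ofReal (by positivity) hs
        have hd : ∀ x ∈ s, ∀ y ∈ s, |x - y| ≤ D := fun x hx y hy =>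
          Metric.dist_le_diam_of_mem' hne hx hy
        show ENNReal.ofReal (1 / 8192) * coin (t ⁻¹' s) ≤ _
        rcases hD0.eq_or_lt with h0 | h0
        · rw [coin_zero t hsep s (by rw [h0]; exact hd)]
          simp
        have hex : ∃ j : ℕ, exp (-(2 * aw (j + 2))) ≤ D := by
          obtain ⟨j, hj⟩ := exists_nat_ge (-log D)
          refine ⟨j, ?_⟩
          rw [← exp_log h0, exp_le_exp]
          have h1 := aw_ge j
          have h2 := aw_mono (show j ≤ j + 2 by omega)
          have h3 := aw_pos j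
          have h4 : (1 : ℝ) ≤ 2 ^ j := one_le_pow₀ (by norm_num)
          have h5 : (0 : ℝ) ≤ j := Nat.cast_nonneg j
          nlinarith
        classical
        set j := Nat.find hex with hj
        have h1 : exp (-(2 * aw (j + 2))) ≤ D := Nat.find_spec hex
        have h2 : D < exp (-(2 * aw (j + 1))) := by
          rcases Nat.eq_zero_or_pos j with h | h
          · rw [h]
            have := exp_pos (-(2 * aw (0 + 1)))
            simp only [zero_add] at this ⊢
            linarith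
          · have h3 := Nat.find_min hex (show j - 1 < j by omega)
            rw [show j - 1 + 2 = j + 1 by omega] at h3
            exact not_le.1 h3
        refine (mul_le_mul_right (coin_small t hsep s D hd j h2) _).trans ?_
        rw [← ENNReal.ofReal_mul (by norm_num)]
        refine ENNReal.ofReal_le_ofReal ?_
        show _ ≤ log (log (1 / D)) ^ 3 / log (1 / D)
        set x := log (1 / D) with hx
        have hj0 : (0 : ℝ) ≤ j := Nat.cast_nonneg j
        have h4 : 2 * aw (j + 1) ≤ x := by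
          have h6 := log_le_log h0 h2.le
          rw [log_exp] at h6
          rw [hx, one_div, log_inv]
          linarith
        have h5 : x ≤ 2 * aw (j + 2) := by
          have h6 := log_le_log (exp_pos _) h1
          rw [log_exp] at h6
          rw [hx, one_div, log_inv]
          linarith
        have h6 : (2 : ℝ) ^ (j + 3) ≤ x := by
          have h7 := aw_pow (i := 0) (j := j + 1) (j + 1) (by omega)
          have h8 : aw 0 = 256 := by simp [aw]
          have h9 : (2 : ℝ) ^ (j + 3) = 4 * 2 ^ (j + 1) := by ring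
          have h10 : (0 : ℝ) < 2 ^ (j + 1) := by positivity
          rw [h8] at h7
          linarith
        have hx0 : 0 < x := lt_of_lt_of_le (by positivity) h6
        have h7 : ((j : ℝ) + 3) / 2 ≤ log x := by
          have h8 := log_le_log (by positivity) h6
          rw [log_pow] at h8
          push_cast at h8
          nlinarith [log_two_gt_d9]
        have h8 := pow_le_pow_left₀ (by positivity) h7 3
        rw [le_div_iff₀ hx0]
        refine le_trans (mul_le_mul_of_nonneg_left h5 (by positivity)) (le_trans (le_of_eq ?_) h8)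
        unfold aw
        push_cast
        rw [one_div (2 : ℝ), inv_pow]
        field_simp
        ring)
    have h2 := h Z
    rw [OuterMeasure.coe_mkMetric] at h2
    refine lt_of_lt_of_le ?_ h2
    show 0 < ENNReal.ofReal (1 / 8192) * coin (t ⁻¹' Z)
    rw [hu]
    simp
  · intro hc
    have h1 : coin (t ⁻¹' Z) = 0 := by
      rw [← Set.biUnion_preimage_singleton, measure_biUnion_null_iff hc]
      intro x _
      refine coin_zero t hsep _ fun a ha b hb => ?_
      rw [Set.mem_singleton_iff.1 ha, Set.mem_singleton_iff.1 hb]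
      simp
    rw [hu] at h1
    simp at h1

/-- A gap, log-uniform in its window. -/
noncomputable def gap (a u : ℝ) : ℝ := exp (-(a * (1 + cl u)))

lemma gap_pos (a u : ℝ) : 0 < gap a u := exp_pos _

lemma gap_le {a : ℝ} (ha : 0 < a) (u : ℝ) : gap a u ≤ exp (-a) := by
  unfold gap
  rw [exp_le_exp]
  have := cl_nonneg u
  nlinarith

lemma le_gap {a : ℝ} (ha : 0 < a) (u : ℝ) : exp (-(2 * a)) ≤ gap a u := by
  unfold gap
  rw [exp_le_exp]
  have := cl_le_one u
  nlinarith

lemma gap_cont (a : ℝ) : Continuous (gap a) := by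
  unfold gap
  have := cl_cont
  fun_prop

/-- Excess of the conditional density when the new pin falls in `(lo, hi]`. -/
noncomputable def trm (r p g lo hi : ℝ) : ℝ :=
  if lo < p + g ∧ p + g ≤ hi then
    r * max (lo - p) 0 / (g - r * max (lo - p) 0) + r * g / (hi - p - r * g) else 0

/-- The profile dominating both parts of `trm`. -/
noncomputable def prof (r a c u : ℝ) : ℝ := (1 - r * exp (-(a * |cl c - cl u|)))⁻¹ - 1

lemma prof_nonneg {r a : ℝ} (h0 : 0 ≤ r) (h1 : r < 1) (ha : 0 < a) (c u : ℝ) :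
    0 ≤ prof r a c u := by
  unfold prof
  have := one_sub_pos h0 h1 (mul_nonneg ha.le (abs_nonneg (cl c - cl u)))
  rw [sub_nonneg]
  exact one_le_inv_iff₀.2 ⟨by linarith [this.1], this.2⟩

lemma prof_cont {r a : ℝ} (h0 : 0 ≤ r) (h1 : r < 1) (ha : 0 < a) (c : ℝ) :
    Continuous (prof r a c) :=
  ((win_cont h0 h1 ha (cl c)).comp cl_cont).sub continuous_const

lemma prof_int {r a : ℝ} (h0 : 0 ≤ r) (h1 : r < 1) (ha : 0 < a) (c : ℝ) :
    ∫⁻ u, ENNReal.ofReal (prof r a c u) ∂nu ≤ ENNReal.ofReal (2 * -log (1 - r) / a) := by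
  have hc := win_cont h0 h1 ha (cl c)
  have hi : Integrable (fun u => (1 - r * exp (-(a * |cl c - cl u|)))⁻¹) nu :=
    ((hc.comp cl_cont).intervalIntegrable 0 1).1
  have hi2 : Integrable (prof r a c) nu := ((prof_cont h0 h1 ha c).intervalIntegrable 0 1).1
  rw [← ofReal_integral_eq_lintegral_ofReal hi2
    (Eventually.of_forall (prof_nonneg h0 h1 ha c))]
  refine ENNReal.ofReal_le_ofReal ?_
  unfold prof
  rw [integral_sub hi (integrable_const _),
    integral_nu_cl (fun u => (1 - r * exp (-(a * |cl c - u|)))⁻¹),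
    integral_abs_split (fun s => (1 - r * exp (-(a * s)))⁻¹) (cl_nonneg c) (cl_le_one c)
      (hc.intervalIntegrable _ _) (hc.intervalIntegrable _ _)]
  have h2 := half_window h0 h1 ha (cl_nonneg c)
  have h3 := half_window (c := 1 - cl c) h0 h1 ha (by linarith [cl_le_one c])
  have h4 : 2 * -log (1 - r) / a = -log (1 - r) / a + -log (1 - r) / a := by ring
  simp only [integral_const, probReal_univ, smul_eq_mul, mul_one]
  linarith

lemma cl_abs (c w : ℝ) (h0 : 0 ≤ w) (h1 : w ≤ 1) : |cl c - w| ≤ |c - w| := by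
  rcases le_total c 0 with h | h
  · rw [cl_of_nonpos h, abs_of_nonpos (by linarith), abs_of_nonpos (by linarith)]; linarith
  rcases le_total c 1 with h' | h'
  · rw [cl_of_mem h h']
  · rw [cl_of_one_le h', abs_of_nonneg (by linarith), abs_of_nonneg (by linarith)]; linarith

lemma ratio_le {r a : ℝ} (h0 : 0 ≤ r) (h1 : r < 1) (ha : 0 < a) {x X c u : ℝ} (hx : 0 < x)
    (hX : x ≤ X) (h : |log x - log X| = a * |c - cl u|) :
    r * x / (X - r * x) ≤ prof r a c u := by
  have hX0 : 0 < X := hx.trans_le hX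
  have h2 : x / X = exp (-(a * |c - cl u|)) := by
    rw [← h, abs_of_nonpos (by linarith [log_le_log hx hX]), neg_neg, exp_sub, exp_log hx,
      exp_log hX0]
  set z' := exp (-(a * |cl c - cl u|)) with hz'
  have h3 : x / X ≤ z' := by
    rw [h2, hz', exp_le_exp]
    have := cl_abs c (cl u) (cl_nonneg u) (cl_le_one u)
    nlinarith
  have h4 := one_sub_pos h0 h1 (mul_nonneg ha.le (abs_nonneg (cl c - cl u)))
  rw [← hz'] at h4
  have h5 : 0 < 1 - r * z' := by linarith [h4.1]
  have h6 : 0 < X - r * x := by nlinarith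
  unfold prof
  rw [← hz', div_le_iff₀ h6]
  rw [div_le_iff₀ hX0] at h3
  have h7 : ((1 - r * z')⁻¹ - 1) * (X - r * x) = r * z' * (X - r * x) / (1 - r * z') := by
    field_simp
    ring
  rw [h7, le_div_iff₀ h5]
  nlinarith [mul_le_mul_of_nonneg_left h3 h0]

lemma trm_parts {r p g lo hi : ℝ} (h0 : 0 ≤ r) (h1 : r < 1) (hg : 0 < g) (hl : lo < p + g)
    (hh : p + g ≤ hi) : 0 ≤ max (lo - p) 0 ∧ max (lo - p) 0 < g ∧
      (1 - r) * g ≤ g - r * max (lo - p) 0 ∧ (1 - r) * (hi - p) ≤ hi - p - r * g ∧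
      0 < g - r * max (lo - p) 0 ∧ 0 < hi - p - r * g := by
  have h2 : max (lo - p) 0 < g := max_lt (by linarith) hg
  have h3 : 0 ≤ max (lo - p) 0 := le_max_right _ _
  refine ⟨h3, h2, by nlinarith, by nlinarith, by nlinarith, by nlinarith⟩

lemma trm_nonneg {r g : ℝ} (h0 : 0 ≤ r) (h1 : r < 1) (hg : 0 < g) (p lo hi : ℝ) :
    0 ≤ trm r p g lo hi := by
  unfold trm
  split_ifs with h
  · obtain ⟨a1, -, -, -, a5, a6⟩ := trm_parts h0 h1 hg h.1 h.2
    positivity
  · exact le_rfl

lemma act_meas (a p lo hi : ℝ) :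
    MeasurableSet {u | lo < p + gap a u ∧ p + gap a u ≤ hi} := by
  have hg : Measurable (fun u => p + gap a u) := (gap_cont a).measurable.const_add p
  exact (measurableSet_lt measurable_const hg).inter (measurableSet_le hg measurable_const)

lemma trm_meas (r a p lo hi : ℝ) : Measurable (fun u => trm r p (gap a u) lo hi) := by
  have hg := (gap_cont a).measurable
  unfold trm
  exact Measurable.ite (act_meas a p lo hi) (by fun_prop) measurable_const

lemma trm_int1 {r a : ℝ} (h0 : 0 ≤ r) (h1 : r < 1) (ha : 0 < a) (p lo hi : ℝ) :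
    ∫⁻ u, ENNReal.ofReal (trm r p (gap a u) lo hi) ∂nu
      ≤ ENNReal.ofReal (4 * -log (1 - r) / a) := by
  set c1 := -log (max (lo - p) 0) / a - 1 with hc1
  set c2 := -log (hi - p) / a - 1 with hc2
  have hL : 0 ≤ -log (1 - r) := by
    have := log_nonpos (x := 1 - r) (by linarith) (by linarith)
    linarith
  have hb : ∀ u, trm r p (gap a u) lo hi ≤ prof r a c1 u + prof r a c2 u := by
    intro u
    have p1 := prof_nonneg h0 h1 ha c1 u
    have p2 := prof_nonneg h0 h1 ha c2 u
    have hlg : log (gap a u) = -(a * (1 + cl u)) := log_exp _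
    unfold trm
    split_ifs with h
    · obtain ⟨a1, a2, -, -, a5, a6⟩ := trm_parts h0 h1 (gap_pos a u) h.1 h.2
      refine add_le_add ?_ (ratio_le h0 h1 ha (gap_pos a u) (by linarith [h.2]) ?_)
      · rcases a1.eq_or_lt with h2 | h2
        · rw [← h2]; simpa using p1
        · refine ratio_le h0 h1 ha h2 a2.le ?_
          rw [← abs_of_pos ha, ← abs_mul, abs_of_pos ha, ← abs_neg, hlg, hc1]
          congr 1
          field_simp
          ring
      · rw [← abs_of_pos ha, ← abs_mul, abs_of_pos ha, hlg, hc2]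
        congr 1
        field_simp
        ring
    · positivity
  calc ∫⁻ u, ENNReal.ofReal (trm r p (gap a u) lo hi) ∂nu
      ≤ ∫⁻ u, (ENNReal.ofReal (prof r a c1 u) + ENNReal.ofReal (prof r a c2 u)) ∂nu :=
        lintegral_mono fun u => (ENNReal.ofReal_le_ofReal (hb u)).trans ENNReal.ofReal_add_le
    _ ≤ ENNReal.ofReal (2 * -log (1 - r) / a) + ENNReal.ofReal (2 * -log (1 - r) / a) := by
        rw [lintegral_add_left (prof_cont h0 h1 ha c1).measurable.ennreal_ofReal]
        exact add_le_add (prof_int h0 h1 ha c1) (prof_int h0 h1 ha c2)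
    _ = _ := by
        rw [← ENNReal.ofReal_add (by positivity) (by positivity)]
        congr 1
        ring

lemma gap_lip {a : ℝ} (ha : 0 < a) {u u' : ℝ} (hu : u ∈ Set.Ioc (0 : ℝ) 1)
    (hu' : u' ∈ Set.Ioc (0 : ℝ) 1) (h : u ≤ u') :
    exp (-(2 * a)) * (a * (u' - u)) ≤ gap a u - gap a u' := by
  have h1 : gap a u = gap a u' * exp (a * (u' - u)) := by
    unfold gap
    rw [cl_of_mem hu.1.le hu.2, cl_of_mem hu'.1.le hu'.2, ← exp_add]
    congr 1
    ring
  have h2 := add_one_le_exp (a * (u' - u))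
  have h3 := le_gap ha u'
  have h4 : 0 ≤ a * (u' - u) := mul_nonneg ha.le (by linarith)
  have h5 := gap_pos a u'
  rw [h1]
  nlinarith [mul_le_mul_of_nonneg_right h3 h4]

lemma trm_int2 {r a : ℝ} (h0 : 0 ≤ r) (h1 : r < 1) (ha : 0 < a) (p : ℝ) {lo hi Δ : ℝ}
    (hΔ : hi - lo ≤ Δ) :
    ∫⁻ u, ENNReal.ofReal (trm r p (gap a u) lo hi) ∂nu
      ≤ ENNReal.ofReal (2 * (r / (1 - r)) * (Δ * exp (2 * a) / a)) := by
  set S : Set ℝ := {u | lo < p + gap a u ∧ p + gap a u ≤ hi} with hS
  have hSm : MeasurableSet S := act_meas a p lo hi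
  have hr : 0 < 1 - r := by linarith
  have hb : ∀ u, ENNReal.ofReal (trm r p (gap a u) lo hi)
      ≤ S.indicator (fun _ => ENNReal.ofReal (2 * (r / (1 - r)))) u := by
    intro u
    unfold trm
    split_ifs with h
    · rw [Set.indicator_of_mem (show u ∈ S from h)]
      refine ENNReal.ofReal_le_ofReal ?_
      have hg0 := gap_pos a u
      obtain ⟨a1, a2, a3, a4, a5, a6⟩ := trm_parts h0 h1 hg0 h.1 h.2
      have b1 : r * max (lo - p) 0 / (gap a u - r * max (lo - p) 0) ≤ r / (1 - r) := by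
        rw [div_le_div_iff₀ a5 hr]
        nlinarith [mul_le_mul_of_nonneg_left a2.le h0]
      have b2 : r * gap a u / (hi - p - r * gap a u) ≤ r / (1 - r) := by
        rw [div_le_div_iff₀ a6 hr]
        nlinarith [mul_le_mul_of_nonneg_left h.2 h0]
      linarith
    · simp
  refine (lintegral_mono hb).trans ?_
  rw [lintegral_indicator_const hSm,
    ENNReal.ofReal_mul (p := 2 * (r / (1 - r))) (by positivity)]
  refine mul_le_mul_right ?_ _
  unfold nu
  rw [Measure.restrict_apply hSm]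
  refine (volume_le_diam _).trans (Metric.ediam_le fun u hu u' hu' => ?_)
  rw [edist_dist, Real.dist_eq]
  refine ENNReal.ofReal_le_ofReal ?_
  have key : ∀ u ∈ S ∩ Set.Ioc (0 : ℝ) 1, ∀ u' ∈ S ∩ Set.Ioc (0 : ℝ) 1, u ≤ u' →
      u' - u ≤ Δ * exp (2 * a) / a := by
    intro u hu u' hu' h
    have h2 := gap_lip ha hu.2 hu'.2 h
    have h3 : gap a u - gap a u' ≤ Δ := by linarith [hu.1.2, hu'.1.1]
    have h4 : exp (-(2 * a)) * exp (2 * a) = 1 := by rw [← exp_add]; simp
    rw [le_div_iff₀ ha]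
    have h5 := mul_le_mul_of_nonneg_right (h2.trans h3) (exp_pos (2 * a)).le
    calc (u' - u) * a = exp (-(2 * a)) * exp (2 * a) * ((u' - u) * a) := by rw [h4, one_mul]
      _ = exp (-(2 * a)) * (a * (u' - u)) * exp (2 * a) := by ring
      _ ≤ _ := h5
  rcases le_total u u' with h | h
  · rw [abs_of_nonpos (by linarith)]
    linarith [key u hu u' hu' h]
  · rw [abs_of_nonneg (by linarith)]
    exact key u' hu' u hu h

lemma cost_le {L M : ℝ} (hL : 0 ≤ L) (hM : L * (L + 1) ≤ M ^ 2) {i j : ℕ} (h : j + 2 ≤ i) :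
    4 * L ≤ 16 * M ^ 2 / aw i ∨
      2 * (exp L - 1) * (exp (-aw i) * exp (2 * aw j)) ≤ 16 * M ^ 2 / aw i := by
  have h1 := aw_pow 2 h
  have hi := aw_pos i
  rcases le_total (aw i) (4 * L) with h8 | h8
  · left
    rw [le_div_iff₀ hi]
    nlinarith
  · right
    have h2 : exp L - 1 ≤ L * exp L := by
      have h3 := mul_le_mul_of_nonneg_right (add_one_le_exp (-L)) (exp_pos L).le
      rw [← exp_add, neg_add_cancel, exp_zero] at h3
      linarith
    have h9 : exp L * (exp (-aw i) * exp (2 * aw j)) ≤ (exp (aw i / 4))⁻¹ := by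
      rw [← exp_add, ← exp_add, ← exp_neg, exp_le_exp]
      linarith
    have h10 : (exp (aw i / 4))⁻¹ ≤ (aw i / 4)⁻¹ :=
      inv_anti₀ (by positivity) (by linarith [add_one_le_exp (aw i / 4)])
    have h11 : (aw i / 4)⁻¹ = 4 / aw i := by field_simp
    have h12 := mul_le_mul_of_nonneg_right h2
      (show 0 ≤ exp (-aw i) * exp (2 * aw j) by positivity)
    have h13 := mul_le_mul_of_nonneg_left (h9.trans (h10.trans_eq h11)) hL
    have h14 : L * (4 / aw i) ≤ M ^ 2 * (4 / aw i) :=
      mul_le_mul_of_nonneg_right (by nlinarith) (by positivity)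
    have h15 : 16 * M ^ 2 / aw i = 4 * (M ^ 2 * (4 / aw i)) := by ring
    have h16 : 0 ≤ M ^ 2 * (4 / aw i) := by positivity
    rw [h15]
    nlinarith

lemma level_sum {L M : ℝ} (hL : 0 ≤ L) (j : ℕ) (T : Finset ℕ) (hT : ∀ i ∈ T, j ≤ i) :
    ∑ i ∈ T, ((2 ^ (i + 1 - j) : ℕ) : ℝ) * (if i ≤ j + 1 then 4 * L else 16 * M ^ 2 / aw i)
      ≤ 24 * L + M ^ 2 / (4 * 2 ^ j * ((j : ℝ) + 1)) := by
  set c : ℝ := M ^ 2 / (8 * 2 ^ j * ((j : ℝ) + 1)) with hc
  have hc0 : 0 ≤ c := by positivity
  have h1 : ∀ i ∈ T, ((2 ^ (i + 1 - j) : ℕ) : ℝ)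
      * (if i ≤ j + 1 then 4 * L else 16 * M ^ 2 / aw i)
      ≤ (if i = j then 8 * L else 0) + (if i = j + 1 then 16 * L else 0)
        + c * (1 / ((i : ℝ) + 1) ^ 2) := by
    intro i hi
    have h0 : 0 ≤ c * (1 / ((i : ℝ) + 1) ^ 2) := by positivity
    obtain ⟨n, rfl⟩ := Nat.exists_eq_add_of_le (hT i hi)
    rw [show j + n + 1 - j = n + 1 by omega]
    rcases n with _ | _ | n
    · simp only [add_zero, le_add_iff_nonneg_right, zero_le, if_true, left_eq_add, one_ne_zero,
        if_false] at h0 ⊢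
      push_cast
      linarith
    · rw [if_pos (by omega), if_neg (by omega), if_pos (by omega)]
      push_cast at h0 ⊢
      linarith
    · rw [if_neg (by omega), if_neg (by omega), if_neg (by omega), zero_add, zero_add, hc]
      unfold aw
      have h2 : (j : ℝ) + 1 ≤ ((j + (n + 1 + 1) : ℕ) : ℝ) + 1 := by
        push_cast; linarith [Nat.cast_nonneg (α := ℝ) n]
      set I : ℝ := ((j + (n + 1 + 1) : ℕ) : ℝ) + 1 with hI
      have hI0 : 0 < I := lt_of_lt_of_le (by positivity) h2
      have e1 : ((2 ^ (n + 1 + 1 + 1) : ℕ) : ℝ) * (16 * M ^ 2 / (256 * 2 ^ (j + (n + 1 + 1)) * I ^ 3))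
          = M ^ 2 / (8 * 2 ^ j * I) * (1 / I ^ 2) := by
        push_cast
        field_simp
        ring
      rw [e1]
      refine mul_le_mul_of_nonneg_right ?_ (by positivity)
      exact div_le_div_of_nonneg_left (by positivity) (by positivity)
        (mul_le_mul_of_nonneg_left h2 (by positivity))
  refine (sum_le_sum h1).trans ?_
  rw [sum_add_distrib, sum_add_distrib, ← mul_sum, sum_ite_eq', sum_ite_eq']
  have h3 := mul_le_mul_of_nonneg_left (sum_inv_sq T) hc0
  have h4 : M ^ 2 / (4 * 2 ^ j * ((j : ℝ) + 1)) = c * 2 := by rw [hc]; field_simp; ring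
  rw [h4]
  split_ifs <;> linarith

/-- Bound for the normalised conditional density of a new pin, given the pins `q`. -/
noncomputable def FF {N : ℕ} (r : ℝ) (q : Fin (N + 1) → ℝ) (p g : ℝ) : ℝ :=
  1 + ∑ m : Fin N, trm r p g (q m.castSucc) (q m.succ)
    + trm r p g (q (Fin.last N)) (q (Fin.last N) + 2)

lemma one_le_FF {N : ℕ} {r g : ℝ} (h0 : 0 ≤ r) (h1 : r < 1) (hg : 0 < g) (q : Fin (N + 1) → ℝ)
    (p : ℝ) : 1 ≤ FF r q p g := by
  unfold FF
  have h2 : 0 ≤ ∑ m : Fin N, trm r p g (q m.castSucc) (q m.succ) :=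
    sum_nonneg fun m _ => trm_nonneg h0 h1 hg _ _ _
  have h3 := trm_nonneg h0 h1 hg p (q (Fin.last N)) (q (Fin.last N) + 2)
  linarith

lemma gaps_bound {N : ℕ} {ℓ : Fin N → ℕ} (hℓ : IsTree ℓ) {q : Fin (N + 1) → ℝ} (hq0 : Monotone q)
    (hq : ∀ m : Fin N, q m.succ - q m.castSucc ≤ exp (-aw (ℓ m)))
    (hq' : ∀ m : Fin N, exp (-(2 * aw (ℓ m))) ≤ q m.succ - q m.castSucc)
    {r M : ℝ} (h0 : 0 ≤ r) (h1 : r < 1)
    (hM : -log (1 - r) * (-log (1 - r) + 1) ≤ M ^ 2) (j : ℕ) (p : ℝ) :
    ∃ β : Fin N → ℝ, (∀ m, 0 ≤ β m) ∧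
      (∀ m : Fin N, ∫⁻ u, ENNReal.ofReal (trm r p (gap (aw j) u) (q m.castSucc) (q m.succ)) ∂nu
        ≤ ENNReal.ofReal (β m / aw j)) ∧
      ∑ m, β m ≤ 32 * -log (1 - r) + M ^ 2 / (4 * 2 ^ j * ((j : ℝ) + 1)) := by
  set L := -log (1 - r) with hLd
  have hL : 0 ≤ L := by
    have := log_nonpos (x := 1 - r) (by linarith) (by linarith)
    linarith
  have ha := aw_pos j
  set S : Finset (Fin N) :=
    {m | q m.castSucc < p + exp (-aw j) ∧ p + exp (-(2 * aw j)) ≤ q m.succ} with hS
  have hz : ∀ m ∉ S, ∫⁻ u, ENNReal.ofReal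
      (trm r p (gap (aw j) u) (q m.castSucc) (q m.succ)) ∂nu = 0 := by
    intro m hm
    have : ∀ u, trm r p (gap (aw j) u) (q m.castSucc) (q m.succ) = 0 := by
      intro u
      unfold trm
      refine if_neg fun h => hm ?_
      simp only [hS, mem_filter, mem_univ, true_and]
      exact ⟨by linarith [h.1, gap_le ha u], by linarith [h.2, le_gap ha u]⟩
    simp [this]
  rcases S.eq_empty_or_nonempty with he | hne
  · refine ⟨fun _ => 0, fun _ => le_rfl, fun m => ?_, ?_⟩
    · rw [hz m (by simp [he])]; exact zero_le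
    · rw [sum_const_zero]; positivity
  set m1 := S.min' hne with hm1
  set m2 := S.max' hne with hm2
  set c : ℕ → ℝ := fun i => if i ≤ j + 1 then 4 * L else 16 * M ^ 2 / aw i with hc
  have hc0 : ∀ i, 0 ≤ c i := fun i => by
    have := aw_pos i
    simp only [hc]
    split_ifs <;> positivity
  have hE : r / (1 - r) = exp L - 1 := by
    have : 0 < 1 - r := by linarith
    rw [hLd, exp_neg, exp_log this]
    field_simp
    ring
  have hlev : ∀ m, m1 < m → m < m2 → j ≤ ℓ m := by
    intro m h2 h3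
    by_contra hlt
    have h4 := (mem_filter.1 (S.min'_mem hne)).2.2
    have h5 := (mem_filter.1 (S.max'_mem hne)).2.1
    have h6 := hq0 (Fin.succ_le_castSucc_iff.2 h2)
    have h7 := hq0 (Fin.succ_le_castSucc_iff.2 h3)
    have h8 := hq' m
    have h9 : exp (-aw j) ≤ exp (-(2 * aw (ℓ m))) := by
      rw [exp_le_exp]
      have := aw_pow (i := ℓ m) (j := j) 1 (by omega)
      linarith
    have h10 := exp_pos (-(2 * aw j))
    linarith
  refine ⟨fun m => (if m = m1 then 4 * L else 0) + (if m = m2 then 4 * L else 0)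
    + (if m ∈ Ioo m1 m2 then c (ℓ m) else 0), fun m => ?_, fun m => ?_, ?_⟩
  · have := hc0 (ℓ m)
    dsimp only
    split_ifs <;> positivity
  · by_cases hm : m ∈ S
    swap
    · rw [hz m hm]; exact zero_le
    have i1 := trm_int1 h0 h1 ha p (q m.castSucc) (q m.succ)
    have i2 : ∫⁻ u, ENNReal.ofReal (trm r p (gap (aw j) u) (q m.castSucc) (q m.succ)) ∂nu
        ≤ ENNReal.ofReal (c (ℓ m) / aw j) := by
      simp only [hc]
      split_ifs with h
      · exact i1
      rcases cost_le hL hM (show j + 2 ≤ ℓ m by omega) with h | h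
      · exact i1.trans (ENNReal.ofReal_le_ofReal (div_le_div_of_nonneg_right h ha.le))
      · refine (trm_int2 h0 h1 ha _ (hq m)).trans (ENNReal.ofReal_le_ofReal ?_)
        rw [hE, ← mul_div_assoc]
        exact div_le_div_of_nonneg_right h ha.le
    have := hc0 (ℓ m)
    by_cases e1 : m ∈ Ioo m1 m2
    · refine i2.trans (ENNReal.ofReal_le_ofReal (div_le_div_of_nonneg_right ?_ ha.le))
      dsimp only
      rw [if_pos e1]
      split_ifs <;> linarith
    · refine i1.trans (ENNReal.ofReal_le_ofReal (div_le_div_of_nonneg_right ?_ ha.le))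
      dsimp only
      rw [if_neg e1, ← hLd]
      have h2 : m = m1 ∨ m = m2 := by
        by_contra h3
        push Not at h3
        exact e1 (mem_Ioo.2 ⟨lt_of_le_of_ne (S.min'_le m hm) h3.1.symm,
          lt_of_le_of_ne (S.le_max' m hm) h3.2⟩)
      split_ifs with h3 h4 h5
      · linarith
      · linarith
      · linarith
      · tauto
  · rw [sum_add_distrib, sum_add_distrib, sum_ite_eq', sum_ite_eq', sum_ite_mem, univ_inter,
      if_pos (mem_univ _), if_pos (mem_univ _)]
    have h2 := (sum_by_level ℓ (Ioo m1 m2) c hc0 _ (hℓ.2 j m1 m2 hlev)).trans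
      (level_sum (M := M) hL j _ fun i hi => by
        obtain ⟨m, hm, rfl⟩ := mem_image.1 hi
        exact hlev m (mem_Ioo.1 hm).1 (mem_Ioo.1 hm).2)
    linarith

lemma node_bound {N : ℕ} {ℓ : Fin N → ℕ} (hℓ : IsTree ℓ) {q : Fin (N + 1) → ℝ} (hq0 : Monotone q)
    (hq : ∀ m : Fin N, q m.succ - q m.castSucc ≤ exp (-aw (ℓ m)))
    (hq' : ∀ m : Fin N, exp (-(2 * aw (ℓ m))) ≤ q m.succ - q m.castSucc)
    {r M : ℝ} (h0 : 0 ≤ r) (h1 : r < 1) (hM0 : 0 ≤ M)
    (hM : -log (1 - r) * (-log (1 - r) + 1) ≤ M ^ 2) (j : ℕ) (p : ℝ) :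
    ∫⁻ u, ENNReal.ofReal (FF r q p (gap (aw j) u)) ∂nu
      ≤ ENNReal.ofReal (exp (M * wt j / 4)) := by
  obtain ⟨β, hβ, hm, hs⟩ := gaps_bound hℓ hq0 hq hq' h0 h1 hM j p
  have hlast := trm_int1 h0 h1 (aw_pos j) p (q (Fin.last N)) (q (Fin.last N) + 2)
  set L := -log (1 - r) with hLd
  have hL : 0 ≤ L := by
    have := log_nonpos (x := 1 - r) (by linarith) (by linarith)
    linarith
  have ha := aw_pos j
  calc ∫⁻ u, ENNReal.ofReal (FF r q p (gap (aw j) u)) ∂nu
      = ∫⁻ u, (1 + ∑ m : Fin N,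
          ENNReal.ofReal (trm r p (gap (aw j) u) (q m.castSucc) (q m.succ))
          + ENNReal.ofReal (trm r p (gap (aw j) u) (q (Fin.last N)) (q (Fin.last N) + 2))) ∂nu := by
        refine lintegral_congr fun u => ?_
        have hg := gap_pos (aw j) u
        have h2 : 0 ≤ ∑ m : Fin N, trm r p (gap (aw j) u) (q m.castSucc) (q m.succ) :=
          sum_nonneg fun m _ => trm_nonneg h0 h1 hg _ _ _
        unfold FF
        rw [ENNReal.ofReal_add (by linarith) (trm_nonneg h0 h1 hg _ _ _),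
          ENNReal.ofReal_add zero_le_one h2, ENNReal.ofReal_one,
          ENNReal.ofReal_sum_of_nonneg (fun m _ => trm_nonneg h0 h1 hg _ _ _)]
    _ ≤ 1 + ∑ m : Fin N, ENNReal.ofReal (β m / aw j) + ENNReal.ofReal (4 * L / aw j) := by
        rw [lintegral_add_right _ (trm_meas _ _ _ _ _).ennreal_ofReal,
          lintegral_add_left measurable_const,
          lintegral_finsetSum _ (fun m _ => (trm_meas _ _ _ _ _).ennreal_ofReal)]
        simp only [lintegral_const, measure_univ, mul_one]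
        exact add_le_add (add_le_add le_rfl (sum_le_sum fun m _ => hm m)) hlast
    _ ≤ _ := by
        have hβ' : ∀ m ∈ (univ : Finset (Fin N)), 0 ≤ β m / aw j := fun m _ =>
          div_nonneg (hβ m) ha.le
        rw [← ENNReal.ofReal_sum_of_nonneg hβ', ← ENNReal.ofReal_one,
          ← ENNReal.ofReal_add zero_le_one (sum_nonneg hβ'),
          ← ENNReal.ofReal_add (add_nonneg zero_le_one (sum_nonneg hβ')) (by positivity)]
        refine ENNReal.ofReal_le_ofReal ?_
        rw [← sum_div]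
        have hLM : L ≤ M := abs_le_of_sq_le_sq' (by nlinarith) hM0 |>.2
        have hw := wt_pos j
        have h2 : L / aw j ≤ M * wt j / 256 := by
          have h3 := aw_ge j
          have h4 : (2 : ℝ) ^ j * ((j : ℝ) + 1) ^ 2 * 256 ≤ aw j := by
            unfold aw
            have h5 : ((j : ℝ) + 1) ^ 2 ≤ ((j : ℝ) + 1) ^ 3 :=
              pow_le_pow_right₀ (by linarith [Nat.cast_nonneg (α := ℝ) j]) (by norm_num)
            have h6 := mul_le_mul_of_nonneg_left h5 (show (0 : ℝ) ≤ 2 ^ j by positivity)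
            linarith
          unfold wt
          rw [mul_one_div, div_div]
          exact div_le_div₀ hM0 hLM (by positivity) h4
        set z := M * wt j with hz
        have hz0 : 0 ≤ z := by positivity
        have h3 : M ^ 2 / (4 * 2 ^ j * ((j : ℝ) + 1)) / aw j = (z / 32) ^ 2 := by
          rw [hz]
          unfold aw wt
          field_simp
          ring
        have h4 := div_le_div_of_nonneg_right hs ha.le
        rw [add_div, h3, mul_div_assoc] at h4
        rw [mul_div_assoc]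
        have h5 : z / 4 = 3 * z / 16 + (z / 32 + z / 32) := by ring
        rw [h5, exp_add, exp_add]
        have h6 := add_one_le_exp (z / 32)
        have h7 := add_one_le_exp (3 * z / 16)
        have h8 := mul_le_mul h6 h6 (by linarith) (exp_pos _).le
        have h9 := mul_le_mul h7 h8 (by positivity) (exp_pos _).le
        nlinarith [mul_nonneg hz0 hz0, mul_nonneg hz0 (mul_nonneg hz0 hz0)]

end Pool.Agent.MP_ba6658_pr.Log
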