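import Mathlib
import Pool.Agent.MP_ba6658_pr.Log.B

set_option autoImplicit false

open Finset Filter Topology MeasureTheory ProbabilityTheory Real
open scoped NNReal ENNReal

namespace Pool.Agent.MP_ba6658_pr.Log

/-- Covariance of normalised increments. -/
noncomputable def cov {n : ℕ} (y lo hi : Fin n → ℝ) (m l : Fin n) : ℝ :=
  ee (y m) (y l) *
    (min (hi m) (hi l) - min (hi m) (lo l) - min (lo m) (hi l) + min (lo m) (lo l))
    / (√(hi m - lo m) * √(hi l - lo l))

lemma cov_symm {n : ℕ} (y lo hi : Fin n → ℝ) (m l : Fin n) :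
    cov y lo hi m l = cov y lo hi l m := by
  unfold cov
  rw [ee_comm, min_comm (hi m) (hi l), min_comm (hi m) (lo l), min_comm (lo m) (hi l),
    min_comm (lo m) (lo l)]
  ring

/-- Indicator of a half-open interval. -/
noncomputable def ind (lo hi u : ℝ) : ℝ := (Set.Ioc lo hi).indicator (fun _ => 1) u

lemma ind_of_mem {lo hi u : ℝ} (h1 : lo < u) (h2 : u ≤ hi) : ind lo hi u = 1 :=
  Set.indicator_of_mem (show u ∈ Set.Ioc lo hi from ⟨h1, h2⟩) _

lemma ind_of_le {lo hi u : ℝ} (h1 : u ≤ lo) : ind lo hi u = 0 :=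
  Set.indicator_of_notMem (fun h => absurd h.1 (not_lt.2 h1)) _

lemma ind_of_lt {lo hi u : ℝ} (h1 : hi < u) : ind lo hi u = 0 :=
  Set.indicator_of_notMem (fun h => absurd h.2 (not_le.2 h1)) _

lemma ind_integrable (lo hi : ℝ) : Integrable (ind lo hi) := by
  unfold ind
  rw [integrable_indicator_iff measurableSet_Ioc]
  exact integrableOn_const (by simp)

lemma ind_integral (lo hi : ℝ) : ∫ u, ind lo hi u = max (hi - lo) 0 := by
  unfold ind
  rw [integral_indicator measurableSet_Ioc]
  simp [Real.volume_real_Ioc]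

lemma ind_mul (lo hi lo' hi' u : ℝ) :
    ind lo hi u * ind lo' hi' u = ind (max lo lo') (min hi hi') u := by
  unfold ind
  rw [← Set.Ioc_inter_Ioc, ← Set.inter_indicator_mul]
  simp

lemma bracket {lo hi lo' hi' : ℝ} (h : lo ≤ hi) (h' : lo' ≤ hi') :
    max (min hi hi' - max lo lo') 0 = min hi hi' - min hi lo' - min lo hi' + min lo lo' := by
  simp only [min_def, max_def]
  split_ifs <;> linarith

lemma qf_cov {n : ℕ} (y lo hi : Fin n → ℝ) (h : ∀ m, lo m ≤ hi m) (ξ : Fin n → ℝ) :
    Integrable (fun u => ∑ m, ∑ l, ee (y m) (y l) * (ξ m / √(hi m - lo m) * ind (lo m) (hi m) u)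
      * (ξ l / √(hi l - lo l) * ind (lo l) (hi l) u)) ∧
    qf (cov y lo hi) ξ = ∫ u, ∑ m, ∑ l,
      ee (y m) (y l) * (ξ m / √(hi m - lo m) * ind (lo m) (hi m) u)
      * (ξ l / √(hi l - lo l) * ind (lo l) (hi l) u) := by
  have e : ∀ m l u, ee (y m) (y l) * (ξ m / √(hi m - lo m) * ind (lo m) (hi m) u)
      * (ξ l / √(hi l - lo l) * ind (lo l) (hi l) u)
      = ee (y m) (y l) * (ξ m / √(hi m - lo m)) * (ξ l / √(hi l - lo l))
        * ind (max (lo m) (lo l)) (min (hi m) (hi l)) u := by
    intro m l u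
    rw [← ind_mul]
    ring
  simp_rw [e]
  have hi1 : ∀ m l, Integrable (fun u =>
      ee (y m) (y l) * (ξ m / √(hi m - lo m)) * (ξ l / √(hi l - lo l))
        * ind (max (lo m) (lo l)) (min (hi m) (hi l)) u) :=
    fun m l => (ind_integrable _ _).const_mul _
  refine ⟨integrable_finsetSum _ fun m _ => integrable_finsetSum _ fun l _ => hi1 m l, ?_⟩
  rw [integral_finsetSum _ fun m _ => integrable_finsetSum _ fun l _ => hi1 m l]
  unfold qf
  refine sum_congr rfl fun m _ => ?_
  rw [integral_finsetSum _ fun l _ => hi1 m l]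
  refine sum_congr rfl fun l _ => ?_
  rw [integral_const_mul, ind_integral, bracket (h m) (h l)]
  unfold cov
  ring

/-- The step function attached to pins `q` and frequencies `ξ`. -/
noncomputable def st {N : ℕ} (q : Fin (N + 1) → ℝ) (ξ : Fin N → ℝ) (u : ℝ) : ℝ :=
  ∑ m, ξ m / √(q m.succ - q m.castSucc) * ind (q m.castSucc) (q m.succ) u

lemma st_mem {N : ℕ} {q : Fin (N + 1) → ℝ} (hq : StrictMono q) (ξ : Fin N → ℝ) {m : Fin N}
    {u : ℝ} (h1 : q m.castSucc < u) (h2 : u ≤ q m.succ) :
    st q ξ u = ξ m / √(q m.succ - q m.castSucc) := by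
  unfold st
  rw [sum_eq_single m, ind_of_mem h1 h2, mul_one]
  · intro l _ hl
    rcases lt_or_gt_of_ne hl with h | h
    · rw [ind_of_lt (lt_of_le_of_lt (hq.monotone (Fin.succ_le_castSucc_iff.2 h)) h1), mul_zero]
    · rw [ind_of_le (h2.trans (hq.monotone (Fin.succ_le_castSucc_iff.2 h))), mul_zero]
  · simp

lemma st_after {N : ℕ} {q : Fin (N + 1) → ℝ} (hq : StrictMono q) {ξ : Fin N → ℝ} {n : Fin N}
    (hξ : ∀ l, n < l → ξ l = 0) {u : ℝ} (h : q n.succ < u) : st q ξ u = 0 := by
  refine sum_eq_zero fun l _ => ?_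
  rcases le_or_gt l n with h1 | h1
  · rw [ind_of_lt (lt_of_le_of_lt (hq.monotone (Fin.succ_le_succ_iff.2 h1)) h), mul_zero]
  · rw [hξ l h1]; simp

lemma st_last {N : ℕ} {q : Fin (N + 1) → ℝ} (hq : StrictMono q) (ξ : Fin N → ℝ)
    {u : ℝ} (h : q (Fin.last N) < u) : st q ξ u = 0 := by
  refine sum_eq_zero fun l _ => ?_
  rw [ind_of_lt (lt_of_le_of_lt (hq.monotone (Fin.le_last _)) h), mul_zero]

lemma exists_gap {N : ℕ} (q : Fin (N + 1) → ℝ) {t : ℝ} (h0 : q 0 < t)
    (h1 : t ≤ q (Fin.last N)) : ∃ m : Fin N, q m.castSucc < t ∧ t ≤ q m.succ := by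
  by_contra hc
  push Not at hc
  have : ∀ i, q i < t := fun i => Fin.induction h0 (fun m hm => hc m hm) i
  exact absurd (this _) (not_lt.2 h1)

lemma alg {ρ g d y : ℝ} (h1 : ρ ^ 2 < 1) (hd : 0 ≤ d) (hg : d < g) (hy : 0 ≤ y) (c z : ℝ) :
    (1 + (ρ ^ 2 * d / (g - ρ ^ 2 * d) + ρ ^ 2 * g / (y + g - ρ ^ 2 * g)))⁻¹ * (g * z ^ 2)
      ≤ (1 - ρ ^ 2) * z ^ 2 * g + (c + ρ * z) ^ 2 * (g - d) + c ^ 2 * y := by
  set r := ρ ^ 2 with hr
  have h0 : 0 ≤ r := sq_nonneg _
  have hg0 : 0 < g := hd.trans_lt hg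
  have hx : 0 < g - d := by linarith
  have hA : 0 < g - r * d := by nlinarith
  have hB : 0 < y + g - r * g := by nlinarith
  have hS : 0 < g - d + y := by linarith
  have s1 : r * (g - d) * y / (g - d + y) * z ^ 2 ≤ (c + ρ * z) ^ 2 * (g - d) + c ^ 2 * y := by
    rw [div_mul_eq_mul_div, div_le_iff₀ hS, hr]
    nlinarith [sq_nonneg ((g - d) * (c + ρ * z) + y * c)]
  have hC : 0 < (y + g - r * g) + r * (g - r * d) := by positivity
  have s2 : (1 + (r * d / (g - r * d) + r * g / (y + g - r * g)))⁻¹ * g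
      = (g - r * d) * (y + g - r * g) / ((y + g - r * g) + r * (g - r * d)) := by
    have : 1 + (r * d / (g - r * d) + r * g / (y + g - r * g))
        = g * ((y + g - r * g) + r * (g - r * d)) / ((g - r * d) * (y + g - r * g)) := by
      field_simp
      ring
    rw [this]
    field_simp
  have s3 : (g - r * d) * (y + g - r * g) / ((y + g - r * g) + r * (g - r * d))
      ≤ (1 - r) * g + r * (g - d) * y / (g - d + y) := by
    have e : (1 - r) * g + r * (g - d) * y / (g - d + y)
        = ((1 - r) * g * (g - d + y) + r * (g - d) * y) / (g - d + y) := by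
      field_simp
    rw [e, div_le_div_iff₀ hC hS]
    have h2 : 0 ≤ r * (1 - r) * d * ((g - d) * (y + g - r * g) + y * (g - r * d)) := by
      have : 0 ≤ 1 - r := by linarith
      positivity
    nlinarith
  rw [← mul_assoc, s2]
  nlinarith [mul_le_mul_of_nonneg_right s3 (sq_nonneg z)]

lemma step_lower {I A A' : ℝ → ℝ} {ρ p t lo hi c z : ℝ} (h1 : ρ ^ 2 < 1)
    (hI : ∀ u, I u = (A' u + ρ * A u) ^ 2 + (1 - ρ ^ 2) * A u ^ 2) (hi' : Integrable I)
    (hpt : p < t) (hl : lo < t) (hh : t ≤ hi)
    (hA : ∀ u, p < u → u ≤ t → A u = z) (hA0 : ∀ u, t < u → A u = 0)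
    (hA' : ∀ u, lo < u → u ≤ hi → A' u = c) :
    (1 + trm (ρ ^ 2) p (t - p) lo hi)⁻¹ * ((t - p) * z ^ 2) ≤ ∫ u, I u := by
  have hε : 0 ≤ 1 - ρ ^ 2 := by linarith
  have hmono : ∫ u, ((1 - ρ ^ 2) * z ^ 2 * ind p t u + (c + ρ * z) ^ 2 * ind (max p lo) t u
      + c ^ 2 * ind t hi u) ≤ ∫ u, I u := by
    refine integral_mono ((((ind_integrable _ _).const_mul _).add
      ((ind_integrable _ _).const_mul _)).add ((ind_integrable _ _).const_mul _)) hi' fun u => ?_
    simp only
    rw [hI]
    have n1 : 0 ≤ (1 - ρ ^ 2) * A u ^ 2 := mul_nonneg hε (sq_nonneg _)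
    have n2 := sq_nonneg (A' u + ρ * A u)
    rcases le_or_gt u t with h | h
    · rw [ind_of_le (lo := t) h]
      rcases le_or_gt u p with h2 | h2
      · rw [ind_of_le h2, ind_of_le (h2.trans (le_max_left _ _))]
        linarith
      · rw [ind_of_mem h2 h, hA u h2 h]
        rcases le_or_gt u lo with h3 | h3
        · rw [ind_of_le (h3.trans (le_max_right _ _))]
          nlinarith [sq_nonneg (A' u + ρ * z)]
        · rw [ind_of_mem (max_lt h2 h3) h, hA' u h3 (h.trans hh)]
          linarith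
    · rw [ind_of_lt (hi := t) h, ind_of_lt (hi := t) h]
      rcases le_or_gt u hi with h2 | h2
      · rw [ind_of_mem h h2, hA0 u h, hA' u (hl.trans h) h2]
        linarith
      · rw [ind_of_lt h2]
        linarith
  refine le_trans ?_ hmono
  have i12 : Integrable (fun u => (1 - ρ ^ 2) * z ^ 2 * ind p t u
      + (c + ρ * z) ^ 2 * ind (max p lo) t u) :=
    ((ind_integrable _ _).const_mul _).add ((ind_integrable _ _).const_mul _)
  rw [integral_add i12
    ((ind_integrable _ _).const_mul _), integral_add ((ind_integrable _ _).const_mul _)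
    ((ind_integrable _ _).const_mul _), integral_const_mul, integral_const_mul,
    integral_const_mul, ind_integral, ind_integral, ind_integral]
  have e1 : t - max p lo = t - p - max (lo - p) 0 := by
    rcases le_total p lo with h | h
    · rw [max_eq_right h, max_eq_left (by linarith)]; ring
    · rw [max_eq_left h, max_eq_right (by linarith)]; ring
  have hd : max (lo - p) 0 < t - p := max_lt (by linarith) (by linarith)
  rw [e1, max_eq_left (a := t - p) (by linarith),
    max_eq_left (a := t - p - max (lo - p) 0) (by linarith),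
    max_eq_left (a := hi - t) (by linarith)]
  have := alg h1 (le_max_right (lo - p) 0) hd (show 0 ≤ hi - t by linarith) c z
  unfold trm
  rw [if_pos ⟨by linarith, by linarith⟩]
  have e2 : hi - t + (t - p) = hi - p := by ring
  rw [e2] at this
  exact this

lemma qf_two {N : ℕ} (y' y : ℝ) {q P : Fin (N + 1) → ℝ} (hq : StrictMono q) (hP : StrictMono P)
    (ξ : Fin (N + N) → ℝ) :
    ∃ I : ℝ → ℝ, Integrable I ∧
      qf (cov (Fin.append (fun _ => y') (fun _ => y))
        (Fin.append (fun m : Fin N => q m.castSucc) (fun m : Fin N => P m.castSucc))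
        (Fin.append (fun m : Fin N => q m.succ) (fun m : Fin N => P m.succ))) ξ = ∫ u, I u ∧
      ∀ u, I u = (st q (fun m => ξ (Fin.castAdd N m)) u
          + ee y' y * st P (fun m => ξ (Fin.natAdd N m)) u) ^ 2
        + (1 - ee y' y ^ 2) * st P (fun m => ξ (Fin.natAdd N m)) u ^ 2 := by
  obtain ⟨h1, h2⟩ := qf_cov (Fin.append (fun _ => y') (fun _ => y))
    (Fin.append (fun m : Fin N => q m.castSucc) (fun m : Fin N => P m.castSucc))
    (Fin.append (fun m : Fin N => q m.succ) (fun m : Fin N => P m.succ))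
    (fun m => Fin.addCases (fun m => by
        simpa using hq.monotone (Fin.castSucc_le_succ m))
      (fun m => by
        simp only [Fin.append_right]
        exact hP.monotone (Fin.castSucc_le_succ m)) m) ξ
  refine ⟨_, h1, h2, fun u => ?_⟩
  simp only [Fin.sum_univ_add, Fin.append_left, Fin.append_right, ee_self, ee_comm y y',
    sum_add_distrib, one_mul, ← mul_sum, ← sum_mul]
  unfold st
  ring

lemma qf_one {N : ℕ} (y : ℝ) {P : Fin (N + 1) → ℝ} (hP : StrictMono P) (ξ : Fin N → ℝ) :
    qf (cov (fun _ => y) (fun m : Fin N => P m.castSucc) (fun m : Fin N => P m.succ)) ξ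
      = ∑ m, ξ m ^ 2 := by
  unfold qf
  refine sum_congr rfl fun m _ => ?_
  have hm := hP (Fin.castSucc_lt_succ (i := m))
  rw [sum_eq_single m]
  · unfold cov
    simp only [ee_self, min_self, min_eq_right hm.le, min_eq_left hm.le]
    rw [mul_self_sqrt (by linarith)]
    have : P m.succ - P m.castSucc ≠ 0 := by linarith
    field_simp
    ring
  · intro l _ hl
    have hl' := hP (Fin.castSucc_lt_succ (i := l))
    have : min (P m.succ) (P l.succ) - min (P m.succ) (P l.castSucc)
        - min (P m.castSucc) (P l.succ) + min (P m.castSucc) (P l.castSucc) = 0 := by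
      rcases lt_or_gt_of_ne hl with h | h
      · have h2 := hP.monotone (Fin.succ_le_castSucc_iff.2 h)
        rw [min_eq_right (by linarith), min_eq_right (by linarith), min_eq_right (by linarith),
          min_eq_right (by linarith)]
        ring
      · have h2 := hP.monotone (Fin.succ_le_castSucc_iff.2 h)
        rw [min_eq_left (by linarith), min_eq_left (by linarith), min_eq_left (by linarith),
          min_eq_left (by linarith)]
        ring
    unfold cov
    simp only [this]
    simp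
  · simp

/-- Lower bounds for the successive conditional variances. -/
lemma qf_lower {N : ℕ} {y' y : ℝ} (hρ : ee y' y ^ 2 < 1) {q P : Fin (N + 1) → ℝ}
    (hq : StrictMono q) (hP : StrictMono P) (hq0 : q 0 = 0) (hP0 : P 0 = 0)
    (hP2 : P (Fin.last N) ≤ 2) (i : Fin (N + N)) (ξ : Fin (N + N) → ℝ)
    (hξ : ∀ l, i < l → ξ l = 0) :
    Fin.append (fun _ : Fin N => (1 : ℝ)) (fun n : Fin N =>
        (FF (ee y' y ^ 2) q (P n.castSucc) (P n.succ - P n.castSucc))⁻¹) i * ξ i ^ 2
      ≤ qf (cov (Fin.append (fun _ => y') (fun _ => y))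
        (Fin.append (fun m : Fin N => q m.castSucc) (fun m : Fin N => P m.castSucc))
        (Fin.append (fun m : Fin N => q m.succ) (fun m : Fin N => P m.succ))) ξ := by
  obtain ⟨I, hI, he, hu⟩ := qf_two y' y hq hP ξ
  rw [he]
  induction i using Fin.addCases with
  | left n =>
    rw [Fin.append_left, one_mul]
    have hz : ∀ u, st P (fun m => ξ (Fin.natAdd N m)) u = 0 := fun u =>
      sum_eq_zero fun l _ => by
        dsimp only
        rw [hξ (Fin.natAdd N l) (by
          rw [Fin.lt_def]; simp only [Fin.val_castAdd, Fin.val_natAdd]; omega)]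
        simp
    have hn := hq (Fin.castSucc_lt_succ (i := n))
    have h1 : ∫ u, (ξ (Fin.castAdd N n) / √(q n.succ - q n.castSucc)) ^ 2
        * ind (q n.castSucc) (q n.succ) u ≤ ∫ u, I u := by
      refine integral_mono ((ind_integrable _ _).const_mul _) hI fun u => ?_
      simp only
      rw [hu, hz]
      rcases le_or_gt u (q n.castSucc) with h | h
      · rw [ind_of_le h]; nlinarith [sq_nonneg (st q (fun m => ξ (Fin.castAdd N m)) u)]
      rcases le_or_gt u (q n.succ) with h2 | h2
      · rw [ind_of_mem h h2, st_mem hq _ h h2]; linarith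
      · rw [ind_of_lt h2]; nlinarith [sq_nonneg (st q (fun m => ξ (Fin.castAdd N m)) u)]
    rw [integral_const_mul, ind_integral, max_eq_left (by linarith), div_pow,
      sq_sqrt (by linarith), div_mul_cancel₀ _ (by linarith)] at h1
    exact h1
  | right n =>
    rw [Fin.append_right]
    have hn := hP (Fin.castSucc_lt_succ (i := n))
    have hg : 0 < P n.succ - P n.castSucc := by linarith
    have hξ' : ∀ l, n < l → ξ (Fin.natAdd N l) = 0 := fun l hl => hξ _ (by
      rw [Fin.lt_def] at hl ⊢; simp only [Fin.val_natAdd]; omega)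
    have e : ξ (Fin.natAdd N n) ^ 2 = (P n.succ - P n.castSucc)
        * (ξ (Fin.natAdd N n) / √(P n.succ - P n.castSucc)) ^ 2 := by
      rw [div_pow, sq_sqrt hg.le]
      field_simp
    have key : ∀ lo hi c : ℝ, lo < P n.succ → P n.succ ≤ hi →
        (∀ u, lo < u → u ≤ hi → st q (fun m => ξ (Fin.castAdd N m)) u = c) →
        1 + trm (ee y' y ^ 2) (P n.castSucc) (P n.succ - P n.castSucc) lo hi
          ≤ FF (ee y' y ^ 2) q (P n.castSucc) (P n.succ - P n.castSucc) →
        (FF (ee y' y ^ 2) q (P n.castSucc) (P n.succ - P n.castSucc))⁻¹ * ξ (Fin.natAdd N n) ^ 2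
          ≤ ∫ u, I u := by
      intro lo hi c h1 h2 h3 h4
      refine le_trans ?_ (step_lower hρ hu hI hn h1 h2
        (fun u a b => st_mem hP (fun m => ξ (Fin.natAdd N m)) a b)
        (fun u a => st_after hP hξ' a) h3)
      rw [← e]
      refine mul_le_mul_of_nonneg_right (inv_anti₀ ?_ h4) (sq_nonneg _)
      have := trm_nonneg (sq_nonneg _) hρ hg (P n.castSucc) lo hi
      linarith
    have hs : ∀ m : Fin N, 0 ≤ trm (ee y' y ^ 2) (P n.castSucc) (P n.succ - P n.castSucc)
        (q m.castSucc) (q m.succ) := fun m => trm_nonneg (sq_nonneg _) hρ hg _ _ _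
    rcases le_or_gt (P n.succ) (q (Fin.last N)) with h | h
    · have h0 : q 0 < P n.succ := by
        rw [hq0, ← hP0]
        exact hP (Fin.succ_pos n)
      obtain ⟨m, h1, h2⟩ := exists_gap q h0 h
      refine key _ _ _ h1 h2 (fun u a b => st_mem hq _ a b) ?_
      unfold FF
      have h3 := single_le_sum (fun m _ => hs m) (mem_univ m)
      have h4 := trm_nonneg (sq_nonneg _) hρ hg (P n.castSucc) (q (Fin.last N))
        (q (Fin.last N) + 2)
      linarith
    · have h1 : 0 ≤ q (Fin.last N) := by rw [← hq0]; exact hq.monotone (Fin.zero_le _)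
      have h2 := hP.monotone (Fin.le_last n.succ)
      refine key _ (q (Fin.last N) + 2) 0 h (by linarith) (fun u a _ => st_last hq _ a) ?_
      unfold FF
      have h3 := sum_nonneg (s := univ) (fun m _ => hs m)
      linarith

end Pool.Agent.MP_ba6658_pr.Log
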