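import Mathlib
import Pool.Agent.MP_ba6658_pr.Log.C

set_option autoImplicit false

open Finset Filter Topology MeasureTheory ProbabilityTheory Real
open scoped NNReal ENNReal

namespace Pool.Agent.MP_ba6658_pr.Log

variable {Ω : Type} [MeasurableSpace Ω]

/-- Law of the sheet normalised in the first variable. -/
def Law (P : Measure Ω) (W : Fin 2 → ℝ → ℝ → Ω → ℝ) : Prop :=
  ∀ (J : Type) [Fintype J] (idx : J → Fin 2) (y t c : J → ℝ), (∀ j, 0 ≤ t j) →
    P.map (fun ω => ∑ j, c j * W (idx j) (y j) (t j) ω) = gaussianReal 0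
      (∑ j, ∑ l, if idx j = idx l then c j * c l * (ee (y j) (y l) * min (t j) (t l))
        else 0).toNNReal

/-- Normalised increment. -/
noncomputable def inc (W : Fin 2 → ℝ → ℝ → Ω → ℝ) (i : Fin 2) (y lo hi : ℝ) (ω : Ω) : ℝ :=
  (W i y hi ω - W i y lo ω) / √(hi - lo)

/-- Gaussian mollifier of the event that all increments vanish. -/
noncomputable def mol {n : ℕ} (W : Fin 2 → ℝ → ℝ → Ω → ℝ) (v : ℝ≥0) (y lo hi : Fin n → ℝ)
    (ω : Ω) : ℝ :=
  ∏ m, ∏ i : Fin 2, exp (-(v * inc W i (y m) (lo m) (hi m) ω ^ 2) / 2)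

omit [MeasurableSpace Ω] in
lemma mol_nonneg {n : ℕ} (W : Fin 2 → ℝ → ℝ → Ω → ℝ) (v : ℝ≥0) (y lo hi : Fin n → ℝ)
    (ω : Ω) : 0 ≤ mol W v y lo hi ω :=
  prod_nonneg fun _ _ => prod_nonneg fun _ _ => (exp_pos _).le

omit [MeasurableSpace Ω] in
lemma mol_le_one {n : ℕ} (W : Fin 2 → ℝ → ℝ → Ω → ℝ) (v : ℝ≥0) (y lo hi : Fin n → ℝ)
    (ω : Ω) : mol W v y lo hi ω ≤ 1 :=
  prod_le_one (fun _ _ => prod_nonneg fun _ _ => (exp_pos _).le) fun _ _ =>
    prod_le_one (fun _ _ => (exp_pos _).le) (fun _ _ => exp_neg_le_one (by positivity))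

lemma mol_fourier (P : Measure Ω) [IsProbabilityMeasure P] {W : Fin 2 → ℝ → ℝ → Ω → ℝ}
    (hm : ∀ i y t, Measurable (W i y t)) (hl : Law P W) {n : ℕ} (v : ℝ≥0) (y lo hi : Fin n → ℝ)
    (hlo : ∀ m, 0 ≤ lo m) (hhi : ∀ m, 0 ≤ hi m) (hQ : ∀ ξ, 0 ≤ qf (cov y lo hi) ξ) :
    ∫ ω, mol W v y lo hi ω ∂P
      = (∫ ξ, exp (-qf (cov y lo hi) ξ / 2) ∂(Measure.pi fun _ => gaussianReal 0 v)) ^ 2 := by
  have hinc : ∀ i m, Measurable (inc W i (y m) (lo m) (hi m)) := fun i m =>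
    ((hm _ _ _).sub (hm _ _ _)).div_const _
  have hF := fourier_exchange P
    (Measure.pi fun _ : Fin 2 => Measure.pi fun _ : Fin n => gaussianReal 0 v)
    (fun ω ξ => ∑ i, ∑ m, inc W i (y m) (lo m) (hi m) ω * ξ i m)
    (by
      refine Finset.measurable_sum _ fun i _ => Finset.measurable_sum _ fun m _ => ?_
      exact ((hinc i m).comp measurable_fst).mul (by fun_prop))
    (mol W v y lo hi) (fun ξ => ∑ i, qf (cov y lo hi) (ξ i))
    (fun ξ => sum_nonneg fun i _ => hQ _)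
    (by
      intro ω
      have e : ∀ ξ : Fin 2 → Fin n → ℝ,
          Complex.exp ((∑ i, ∑ m, inc W i (y m) (lo m) (hi m) ω * ξ i m : ℝ) * Complex.I)
          = ∏ i, ∏ m, Complex.exp ((inc W i (y m) (lo m) (hi m) ω * ξ i m : ℝ) * Complex.I) := by
        intro ξ
        simp_rw [← Complex.exp_sum]
        congr 1
        push_cast
        rw [sum_mul]
        exact sum_congr rfl fun i _ => sum_mul _ _ _
      simp_rw [e]
      rw [integral_fintype_prod_eq_prod (fun (i : Fin 2) (η : Fin n → ℝ) =>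
        ∏ m, Complex.exp ((inc W i (y m) (lo m) (hi m) ω * η m : ℝ) * Complex.I))]
      have e2 : ∀ i : Fin 2, ∫ η : Fin n → ℝ,
          ∏ m, Complex.exp ((inc W i (y m) (lo m) (hi m) ω * η m : ℝ) * Complex.I)
            ∂(Measure.pi fun _ => gaussianReal 0 v)
          = ∏ m, ((exp (-(v * inc W i (y m) (lo m) (hi m) ω ^ 2) / 2) : ℝ) : ℂ) := by
        intro i
        rw [integral_fintype_prod_eq_prod (fun (m : Fin n) (x : ℝ) =>
          Complex.exp ((inc W i (y m) (lo m) (hi m) ω * x : ℝ) * Complex.I))]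
        simp_rw [gauss_char]
      simp_rw [e2]
      unfold mol
      rw [Finset.prod_comm, Complex.ofReal_prod]
      simp_rw [Complex.ofReal_prod])
    (by
      intro ξ
      have h := hl ((Fin 2 × Fin n) ⊕ (Fin 2 × Fin n)) (Sum.elim Prod.fst Prod.fst)
        (Sum.elim (fun b => y b.2) (fun b => y b.2)) (Sum.elim (fun b => hi b.2) (fun b => lo b.2))
        (Sum.elim (fun b => ξ b.1 b.2 / √(hi b.2 - lo b.2))
          (fun b => -(ξ b.1 b.2 / √(hi b.2 - lo b.2))))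
        (fun j => by rcases j with b | b; exacts [hhi _, hlo _])
      convert h using 2
      · funext ω
        simp only [Fintype.sum_sum_type, Sum.elim_inl, Sum.elim_inr, ← sum_add_distrib,
          Fintype.sum_prod_type]
        refine sum_congr rfl fun i _ => sum_congr rfl fun m _ => ?_
        unfold inc
        ring
      · congr 1
        simp only [Fintype.sum_sum_type, Sum.elim_inl, Sum.elim_inr, ← sum_add_distrib,
          Fintype.sum_prod_type]
        refine sum_congr rfl fun i _ => ?_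
        unfold qf
        refine sum_congr rfl fun m _ => ?_
        rw [sum_eq_single i]
        · refine sum_congr rfl fun l _ => ?_
          simp only [if_true]
          unfold cov
          ring
        · intro i' _ hi'
          simp [hi'.symm]
        · simp)
  rw [hF]
  have e : ∀ ξ : Fin 2 → Fin n → ℝ, exp (-(∑ i, qf (cov y lo hi) (ξ i)) / 2)
      = ∏ i, exp (-qf (cov y lo hi) (ξ i) / 2) := by
    intro ξ
    rw [← exp_sum, ← sum_div, sum_neg_distrib]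
  simp_rw [e]
  rw [integral_fintype_prod_eq_prod
    (fun (_ : Fin 2) (η : Fin n → ℝ) => exp (-qf (cov y lo hi) η / 2))]
  simp [pow_two]

lemma int_le_of_lint {α : Type*} [MeasurableSpace α] (μ : Measure α) {f : α → ℝ}
    (h0 : ∀ a, 0 ≤ f a) {C : ℝ} (hC : 0 ≤ C)
    (h : ∫⁻ a, ENNReal.ofReal (f a) ∂μ ≤ ENNReal.ofReal C) : ∫ a, f a ∂μ ≤ C := by
  refine (le_abs_self _).trans ((norm_integral_le_lintegral_norm f).trans ?_)
  simp_rw [Real.norm_eq_abs, abs_of_nonneg (h0 _)]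
  exact ENNReal.toReal_le_of_le_ofReal hC h

lemma first_pt (P : Measure Ω) [IsProbabilityMeasure P] {W : Fin 2 → ℝ → ℝ → Ω → ℝ}
    (hm : ∀ i y t, Measurable (W i y t)) (hl : Law P W) {N : ℕ} {v : ℝ≥0} (hv : v ≠ 0)
    (y : ℝ) {q : Fin (N + 1) → ℝ} (hq : StrictMono q) (hq0 : q 0 = 0) :
    exp (-(N / v)) ≤ (v : ℝ) ^ N * ∫ ω, mol W v (fun _ => y) (fun m : Fin N => q m.castSucc)
      (fun m : Fin N => q m.succ) ω ∂P := by
  have hv0 : (0 : ℝ) < v := by positivity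
  have h0 : ∀ i, 0 ≤ q i := fun i => hq0 ▸ hq.monotone (Fin.zero_le _)
  rw [mol_fourier P hm hl v _ _ _ (fun _ => h0 _) (fun _ => h0 _)
    (fun ξ => by rw [qf_one y hq]; positivity)]
  have e : ∀ ξ : Fin N → ℝ, exp (-qf (cov (fun _ => y) (fun m : Fin N => q m.castSucc)
      (fun m : Fin N => q m.succ)) ξ / 2) = ∏ m, exp (-(1 * ξ m ^ 2) / 2) := by
    intro ξ
    rw [qf_one y hq, ← exp_sum, ← sum_div, sum_neg_distrib]
    simp
  simp_rw [e]
  rw [integral_fintype_prod_eq_prod (fun (_ : Fin N) (x : ℝ) => exp (-(1 * x ^ 2) / 2)),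
    gauss_exact hv zero_le_one, prod_const, card_univ, Fintype.card_fin, ← pow_mul, mul_comm N 2,
    pow_mul, ← mul_pow, inv_pow, sq_sqrt (by positivity)]
  have h1 : exp (-(1 / v)) ≤ (v : ℝ) * (1 + 1 * (v : ℝ))⁻¹ := by
    have h5 := add_one_le_exp (1 / v : ℝ)
    have h6 : ∀ x : ℝ, 0 < x → x * (1 + 1 * x)⁻¹ = (1 / x + 1)⁻¹ := fun x hx => by field_simp
    replace h6 := h6 v hv0
    rw [h6, exp_neg]
    exact inv_anti₀ (by positivity) h5
  refine le_trans ?_ (pow_le_pow_left₀ (exp_pos _).le h1 N)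
  rw [← exp_nat_mul, mul_neg, mul_one_div]

lemma second_pt (P : Measure Ω) [IsProbabilityMeasure P] {W : Fin 2 → ℝ → ℝ → Ω → ℝ}
    (hm : ∀ i y t, Measurable (W i y t)) (hl : Law P W) {N : ℕ} {v : ℝ≥0} (hv : v ≠ 0)
    {y' y : ℝ} (hρ : ee y' y ^ 2 < 1) {q p : Fin (N + 1) → ℝ}
    (hq : StrictMono q) (hp : StrictMono p) (hq0 : q 0 = 0) (hp0 : p 0 = 0)
    (hp2 : p (Fin.last N) ≤ 2) :
    (v : ℝ) ^ N * (v : ℝ) ^ N * ∫ ω, mol W v (fun _ => y') (fun m : Fin N => q m.castSucc)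
      (fun m : Fin N => q m.succ) ω * mol W v (fun _ => y) (fun m : Fin N => p m.castSucc)
      (fun m : Fin N => p m.succ) ω ∂P
      ≤ ∏ n : Fin N, FF (ee y' y ^ 2) q (p n.castSucc) (p n.succ - p n.castSucc) := by
  have hv0 : (0 : ℝ) < v := by positivity
  have h0 : ∀ i, 0 ≤ q i := fun i => hq0 ▸ hq.monotone (Fin.zero_le _)
  have h0' : ∀ i, 0 ≤ p i := fun i => hp0 ▸ hp.monotone (Fin.zero_le _)
  have hF : ∀ n : Fin N, 1 ≤ FF (ee y' y ^ 2) q (p n.castSucc) (p n.succ - p n.castSucc) :=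
    fun n => one_le_FF (sq_nonneg _) hρ (sub_pos.2 (hp Fin.castSucc_lt_succ)) _ _
  have e : ∀ ω, mol W v (fun _ => y') (fun m : Fin N => q m.castSucc)
      (fun m : Fin N => q m.succ) ω * mol W v (fun _ => y) (fun m : Fin N => p m.castSucc)
      (fun m : Fin N => p m.succ) ω = mol W v (Fin.append (fun _ => y') (fun _ => y))
        (Fin.append (fun m : Fin N => q m.castSucc) (fun m : Fin N => p m.castSucc))
        (Fin.append (fun m : Fin N => q m.succ) (fun m : Fin N => p m.succ)) ω := by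
    intro ω
    unfold mol
    simp only [Fin.prod_univ_add, Fin.append_left, Fin.append_right]
  simp_rw [e]
  rw [mol_fourier P hm hl v _ _ _
    (fun m => Fin.addCases (fun m => by simp only [Fin.append_left]; exact h0 _)
      (fun m => by simp only [Fin.append_right]; exact h0' _) m)
    (fun m => Fin.addCases (fun m => by simp only [Fin.append_left]; exact h0 _)
      (fun m => by simp only [Fin.append_right]; exact h0' _) m)
    (fun ξ => by
      obtain ⟨I, -, he, hu⟩ := qf_two y' y hq hp ξ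
      rw [he]
      refine integral_nonneg fun u => ?_
      rw [hu]
      have : 0 ≤ 1 - ee y' y ^ 2 := by linarith
      positivity)]
  set V : Fin (N + N) → ℝ := Fin.append (fun _ : Fin N => (1 : ℝ)) (fun n : Fin N =>
    (FF (ee y' y ^ 2) q (p n.castSucc) (p n.succ - p n.castSucc))⁻¹) with hV
  have hV0 : ∀ i, 0 < V i := fun i => Fin.addCases
    (fun m => by simp only [hV, Fin.append_left]; exact one_pos)
    (fun m => by simp only [hV, Fin.append_right]; exact inv_pos.2 (by linarith [hF m])) i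
  have h1 := gauss_tri hv _ _ V (cov_symm _ _ _) hV0 (qf_lower hρ hq hp hq0 hp0 hp2)
  rw [← ENNReal.ofReal_prod_of_nonneg (fun i _ => by positivity)] at h1
  have h2 := int_le_of_lint _ (fun _ => (exp_pos _).le)
    (prod_nonneg fun i _ => by positivity) h1
  refine (mul_le_mul_of_nonneg_left
    (pow_le_pow_left₀ (integral_nonneg fun _ => (exp_pos _).le) h2 2) (by positivity)).trans
    (le_of_eq ?_)
  rw [← prod_pow]
  have e2 : ∀ i, (√(v * V i))⁻¹ ^ 2 = (v * V i)⁻¹ := fun i => by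
    rw [inv_pow, sq_sqrt (mul_pos hv0 (hV0 i)).le]
  simp_rw [e2]
  simp only [hV, Fin.prod_univ_add, Fin.append_left, Fin.append_right, mul_inv, inv_inv,
    prod_mul_distrib, prod_const, card_univ, Fintype.card_fin, inv_pow]
  field_simp
  ring

/-- The pins attached to the parameters `u`. -/
noncomputable def pins {N : ℕ} (ℓ : Fin N → ℕ) (u : Fin N → ℝ) : Fin (N + 1) → ℝ :=
  Fin.partialSum (fun l => gap (aw (ℓ l)) (u l))

lemma pins_zero {N : ℕ} (ℓ : Fin N → ℕ) (u : Fin N → ℝ) : pins ℓ u 0 = 0 :=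
  Fin.partialSum_zero _

lemma pins_sub {N : ℕ} (ℓ : Fin N → ℕ) (u : Fin N → ℝ) (m : Fin N) :
    pins ℓ u m.succ - pins ℓ u m.castSucc = gap (aw (ℓ m)) (u m) := by
  unfold pins
  rw [Fin.partialSum_succ]
  ring

lemma pins_mono {N : ℕ} (ℓ : Fin N → ℕ) (u : Fin N → ℝ) : StrictMono (pins ℓ u) :=
  Fin.strictMono_iff_lt_succ.2 fun m => by
    have := pins_sub ℓ u m
    have := gap_pos (aw (ℓ m)) (u m)
    linarith

lemma pins_last {N : ℕ} {ℓ : Fin N → ℕ} (hℓ : IsTree ℓ) (u : Fin N → ℝ) :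
    pins ℓ u (Fin.last N) ≤ 2 := by
  have : pins ℓ u (Fin.last N) = ∑ l, gap (aw (ℓ l)) (u l) := by
    unfold pins Fin.partialSum
    rw [List.take_of_length_le (by simp), List.sum_ofFn]
  rw [this]
  exact le_trans (sum_le_sum fun l _ => (gap_le (aw_pos _) _).trans (exp_aw_le _)) (sum_wt hℓ)

lemma pins_cont {N : ℕ} (ℓ : Fin N → ℕ) (i : Fin (N + 1)) :
    Continuous (fun u => pins ℓ u i) := by
  induction i using Fin.induction with
  | zero => simp only [pins_zero]; exact continuous_const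
  | succ m ih =>
    have : (fun u => pins ℓ u m.succ)
        = fun u => pins ℓ u m.castSucc + gap (aw (ℓ m)) (u m) := by
      funext u
      rw [← pins_sub]
      ring
    rw [this]
    exact ih.add ((gap_cont _).comp (continuous_apply m))

/-- The mollifier as a function of the parameter. -/
noncomputable def HH' {N : ℕ} (W : Fin 2 → ℝ → ℝ → Ω → ℝ) (ℓ : Fin N → ℕ) (Y : ℝ) (v : ℝ≥0)
    (θ : ℝ × (Fin N → ℝ)) (ω : Ω) : ℝ :=
  mol W v (fun _ => Y * cl θ.1) (fun m : Fin N => pins ℓ θ.2 m.castSucc)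
    (fun m : Fin N => pins ℓ θ.2 m.succ) ω

lemma HH'_meas {N : ℕ} {W : Fin 2 → ℝ → ℝ → Ω → ℝ}
    (hm : ∀ i, Measurable (fun z : (ℝ × ℝ) × Ω => W i z.1.1 z.1.2 z.2)) (ℓ : Fin N → ℕ)
    (Y : ℝ) (v : ℝ≥0) : Measurable (fun z : (ℝ × (Fin N → ℝ)) × Ω => HH' W ℓ Y v z.1 z.2) := by
  unfold HH' mol inc
  refine Finset.measurable_prod _ fun m _ => Finset.measurable_prod _ fun i _ => ?_
  have h0 : ∀ j, Measurable (fun z : (ℝ × (Fin N → ℝ)) × Ω => pins ℓ z.1.2 j) := fun j =>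
    (pins_cont ℓ j).measurable.comp (measurable_snd.comp measurable_fst)
  have h1 : ∀ j, Measurable (fun z : (ℝ × (Fin N → ℝ)) × Ω =>
      W i (Y * cl z.1.1) (pins ℓ z.1.2 j) z.2) := fun j =>
    (hm i).comp (f := fun z : (ℝ × (Fin N → ℝ)) × Ω => ((Y * cl z.1.1, pins ℓ z.1.2 j), z.2))
      ((((cl_cont.measurable.comp (measurable_fst.comp measurable_fst)).const_mul Y).prodMk
        (h0 j)).prodMk measurable_snd)
  exact measurable_exp.comp ((((((h1 m.succ).sub (h1 m.castSucc)).div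
    ((h0 m.succ).sub (h0 m.castSucc)).sqrt).pow_const 2).const_mul _).neg.div_const 2)

lemma HH'_int_meas {N : ℕ} {W : Fin 2 → ℝ → ℝ → Ω → ℝ}
    (hm : ∀ i, Measurable (fun z : (ℝ × ℝ) × Ω => W i z.1.1 z.1.2 z.2)) (ℓ : Fin N → ℕ)
    (Y : ℝ) (v : ℝ≥0) : Measurable (fun ω => ∫ θ, HH' W ℓ Y v θ ω ∂(mu N)) :=
  ((HH'_meas hm ℓ Y v).stronglyMeasurable.integral_prod_left' (μ := mu N)).measurable

lemma meas_pt {W : Fin 2 → ℝ → ℝ → Ω → ℝ}
    (hm : ∀ i, Measurable (fun z : (ℝ × ℝ) × Ω => W i z.1.1 z.1.2 z.2)) (i : Fin 2) (y t : ℝ) :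
    Measurable (W i y t) :=
  (hm i).comp (f := fun ω => ((y, t), ω)) (measurable_const.prodMk measurable_id)

lemma first_mom (P : Measure Ω) [IsProbabilityMeasure P] {W : Fin 2 → ℝ → ℝ → Ω → ℝ}
    (hm : ∀ i, Measurable (fun z : (ℝ × ℝ) × Ω => W i z.1.1 z.1.2 z.2)) (hl : Law P W)
    {N : ℕ} (ℓ : Fin N → ℕ) (Y : ℝ) {v : ℝ≥0} (hv : v ≠ 0) :
    exp (-(N / v)) ≤ ∫ ω, (v : ℝ) ^ N * ∫ θ, HH' W ℓ Y v θ ω ∂(mu N) ∂P := by
  rw [integral_const_mul, ← integral_integral_swap (f := fun θ ω => HH' W ℓ Y v θ ω),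
    ← integral_const_mul]
  · have h := integral_mono_of_nonneg (μ := mu N) (f := fun _ => exp (-(N / v)))
      (g := fun θ => (v : ℝ) ^ N * ∫ ω, HH' W ℓ Y v θ ω ∂P)
      (Eventually.of_forall fun _ => (exp_pos _).le) ?_
      (Eventually.of_forall fun θ =>
        first_pt P (meas_pt hm) hl hv _ (pins_mono ℓ θ.2) (pins_zero ℓ θ.2))
    · simpa using h
    · refine Integrable.const_mul (integrable_unit _ ?_
        (fun θ => integral_nonneg fun ω => mol_nonneg _ _ _ _ _ _)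
        (fun θ => integral_unit_le _ (fun ω => mol_nonneg _ _ _ _ _ _)
          fun ω => mol_le_one _ _ _ _ _ _)) _
      exact ((HH'_meas hm ℓ Y v).stronglyMeasurable.integral_prod_right' (ν := P)).measurable
  · exact integrable_unit _ (f := fun z : (ℝ × (Fin N → ℝ)) × Ω => HH' W ℓ Y v z.1 z.2)
      (HH'_meas hm ℓ Y v) (fun z => mol_nonneg _ _ _ _ _ _) (fun z => mol_le_one _ _ _ _ _ _)

lemma corr_bound {y y' : ℝ} (hy : y ≠ y') : ee y y' ^ 2 < 1 ∧ ∃ M : ℝ, 0 ≤ M ∧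
    -log (1 - ee y y' ^ 2) * (-log (1 - ee y y' ^ 2) + 1) ≤ M ^ 2 ∧
    exp (M / 2) ≤ 1 + 4 * |y - y'| ^ (-1 / 2 : ℝ) := by
  have hw : 0 < |y - y'| := abs_pos.2 (sub_ne_zero.2 hy)
  have hσ : ee y y' ^ 2 < 1 := by
    rw [ee_sq, exp_lt_one_iff]
    linarith
  have hL : 0 ≤ -log (1 - ee y y' ^ 2) := by
    have := log_nonpos (x := 1 - ee y y' ^ 2) (by linarith) (by linarith [sq_nonneg (ee y y')])
    linarith
  refine ⟨hσ, ?_⟩
  rcases le_total |y - y'| 1 with h | h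
  · refine ⟨-log (1 - ee y y' ^ 2) + 1, by linarith, by nlinarith, ?_⟩
    have h6 : (√(1 - ee y y' ^ 2))⁻¹ = exp (-log (1 - ee y y' ^ 2) / 2) := by
      rw [neg_div, exp_neg, ← log_sqrt (by linarith), exp_log (sqrt_pos.2 (by linarith))]
    have h7 := sing_le hy h
    have h8 : exp (1 / 2 : ℝ) ≤ 2 := by
      refine abs_le_of_sq_le_sq' ?_ (by norm_num) |>.2
      rw [← exp_nat_mul]
      norm_num
      linarith [exp_one_lt_d9]
    rw [add_div, exp_add, ← h6]
    have h9 := mul_le_mul h7 h8 (exp_pos _).le (by positivity)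
    linarith
  · set ρ := ee y y' with hρ
    have h0 : 0 < ρ := ee_pos _ _
    have h1 : ρ ^ 2 ≤ 1 / 2 := by
      rw [hρ, ee_sq, exp_neg, one_div]
      exact inv_anti₀ (by norm_num) (by linarith [add_one_le_exp |y - y'|])
    have h2 : -log (1 - ρ ^ 2) ≤ 2 * ρ ^ 2 := by
      have h3 := one_sub_inv_le_log_of_pos (show 0 < 1 - ρ ^ 2 by linarith)
      have h4 : (1 - ρ ^ 2)⁻¹ ≤ 1 + 2 * ρ ^ 2 := by
        rw [inv_le_iff_one_le_mul₀ (by linarith)]
        nlinarith [sq_nonneg ρ]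
      linarith
    refine ⟨2 * ρ, by positivity, by nlinarith, ?_⟩
    have h5 : ρ ≤ 1 := ee_le_one _ _
    have h6 := Real.abs_exp_sub_one_le (x := ρ) (by rw [abs_of_pos h0]; exact h5)
    rw [abs_of_pos h0] at h6
    have h7 : ρ ≤ |y - y'| ^ (-1 / 2 : ℝ) := by
      rw [rpow_def_of_pos hw, hρ]
      unfold ee
      rw [exp_le_exp]
      linarith [log_le_sub_one_of_pos hw]
    rw [mul_div_cancel_left₀ _ two_ne_zero]
    linarith [(abs_le.1 h6).2]

lemma second_mom (P : Measure Ω) [IsProbabilityMeasure P] {W : Fin 2 → ℝ → ℝ → Ω → ℝ}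
    (hm : ∀ i, Measurable (fun z : (ℝ × ℝ) × Ω => W i z.1.1 z.1.2 z.2)) (hl : Law P W)
    {N : ℕ} {ℓ : Fin N → ℕ} (hℓ : IsTree ℓ) {T : ℝ} (hT : 0 < T) {v : ℝ≥0} (hv : v ≠ 0) :
    ∫ ω, ((v : ℝ) ^ N * ∫ θ, HH' W ℓ (T ^ 2) v θ ω ∂(mu N)) ^ 2 ∂P ≤ 1 + 16 / T := by
  have hv0 : (0 : ℝ) < v := by positivity
  have hvk : (0 : ℝ) < (v : ℝ) ^ N * (v : ℝ) ^ N := by positivity
  simp_rw [mul_pow]
  rw [integral_const_mul, pow_two ((v : ℝ) ^ N), ← le_div_iff₀' hvk]
  refine second_moment_general (mu N) _ (HH' W ℓ (T ^ 2) v) (HH'_meas hm ℓ _ v)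
    (fun _ _ => mol_nonneg _ _ _ _ _ _) (fun _ _ => mol_le_one _ _ _ _ _ _) fun θ => ?_
  rw [le_div_iff₀' hvk, ← integral_const_mul]
  refine int_le_of_lint _ (fun θ' => mul_nonneg hvk.le (integral_nonneg fun ω =>
    mul_nonneg (mol_nonneg _ _ _ _ _ _) (mol_nonneg _ _ _ _ _ _))) (by positivity) ?_
  unfold mu
  refine (lintegral_prod_le _).trans ?_
  set y := cl θ.1 with hy
  have hy0 : 0 ≤ y := cl_nonneg _
  have hy1 : y ≤ 1 := cl_le_one _
  have hne : ∀ᵐ y' ∂nu, y' ≠ y := by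
    unfold nu
    exact ae_restrict_of_ae (by simp [ae_iff])
  have hmem : ∀ᵐ y' ∂nu, y' ∈ Set.Ioc (0 : ℝ) 1 := ae_restrict_mem measurableSet_Ioc
  refine le_trans (lintegral_mono_ae (g := fun y' =>
    ENNReal.ofReal (1 + 4 / T * |y - y'| ^ (-1 / 2 : ℝ))) ?_) ?_
  · filter_upwards [hne, hmem] with y' h1 h2
    have hcl : cl y' = y' := cl_of_mem h2.1.le h2.2
    obtain ⟨hσ, M, hM0, hM, hK⟩ := corr_bound (y := T ^ 2 * y) (y' := T ^ 2 * y')
      (fun h => h1 (mul_left_cancel₀ (by positivity) h).symm)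
    have h4 := seq_bound nu N (fun l => gap (aw (ℓ l)))
      (fun n p u => FF (ee (T ^ 2 * y) (T ^ 2 * y') ^ 2) (pins ℓ θ.2) p (gap (aw (ℓ n)) u))
      (fun n => exp (M * wt (ℓ n) / 4))
      (fun n p => node_bound hℓ (pins_mono ℓ θ.2).monotone
        (fun m => by rw [pins_sub]; exact gap_le (aw_pos _) _)
        (fun m => by rw [pins_sub]; exact le_gap (aw_pos _) _) (sq_nonneg _) hσ hM0 hM (ℓ n) p) 0
    refine le_trans (lintegral_mono fun u => ?_) (h4.trans ?_)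
    · rw [← ENNReal.ofReal_prod_of_nonneg (fun n _ =>
        zero_le_one.trans (one_le_FF (sq_nonneg _) hσ (gap_pos _ _) _ _))]
      refine ENNReal.ofReal_le_ofReal ?_
      have h5 := second_pt P (meas_pt hm) hl hv hσ (pins_mono ℓ θ.2) (pins_mono ℓ u)
        (pins_zero ℓ θ.2) (pins_zero ℓ u) (pins_last hℓ u)
      simp only [pins_sub] at h5
      simp only [hcl, zero_add]
      exact h5
    · rw [← ENNReal.ofReal_prod_of_nonneg (fun n _ => (exp_pos _).le)]
      refine ENNReal.ofReal_le_ofReal ?_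
      have h6 : |T ^ 2 * y - T ^ 2 * y'| ^ (-1 / 2 : ℝ) = T⁻¹ * |y - y'| ^ (-1 / 2 : ℝ) := by
        rw [← mul_sub, abs_mul, abs_of_pos (by positivity : 0 < T ^ 2),
          mul_rpow (by positivity) (abs_nonneg _), ← rpow_natCast, ← rpow_mul hT.le]
        norm_num
        left
        exact rpow_neg_one T
      rw [h6, ← mul_assoc, ← div_eq_mul_inv] at hK
      refine le_trans ?_ hK
      rw [← exp_sum, exp_le_exp, ← sum_div, ← mul_sum]
      linarith [mul_le_mul_of_nonneg_left (sum_wt hℓ) hM0]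
  · have hi := (sing_integrable hy0 hy1).const_mul (4 / T)
    have hi2 : Integrable (fun y' => 1 + 4 / T * |y - y'| ^ (-1 / 2 : ℝ)) nu :=
      (integrable_const 1).add hi
    rw [← ofReal_integral_eq_lintegral_ofReal hi2
      (Eventually.of_forall fun y' => by positivity)]
    refine ENNReal.ofReal_le_ofReal ?_
    rw [integral_add (integrable_const 1) hi, integral_const_mul]
    have h1 := mul_le_mul_of_nonneg_left (sing_bound hy0 hy1) (show 0 ≤ 4 / T by positivity)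
    have h2 : 4 / T * 4 = 16 / T := by ring
    simp only [integral_const, probReal_univ, smul_eq_mul, mul_one]
    linarith

/-- Quantitative second moment method. -/
lemma prob_tendsto (P : Measure Ω) [IsProbabilityMeasure P]
    (X : ℕ → Ω → ℝ) (hm : ∀ n, Measurable (X n)) (h0 : ∀ n ω, 0 ≤ X n ω)
    (hb : ∀ n, ∃ B, ∀ ω, X n ω ≤ B) {c C : ℝ} (hC : 0 < C)
    (h1 : ∀ n, c ≤ ∫ ω, X n ω ∂P) (h2 : ∀ n, ∫ ω, X n ω ^ 2 ∂P ≤ C) :
    P.real {ω | Tendsto (fun n => X n ω) atTop (𝓝 0)} ≤ 1 + C - 2 * c := by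
  set A := {ω | Tendsto (fun n => X n ω) atTop (𝓝 0)} with hA
  have hAm : MeasurableSet A := measurableSet_tendsto (𝓝 0) hm
  by_contra hc
  have hsq : ∀ n, Integrable (fun ω => X n ω ^ 2) P := by
    intro n
    obtain ⟨B, hB⟩ := hb n
    refine Integrable.of_bound (C := B ^ 2) ((hm n).pow_const 2).aestronglyMeasurable
      (Eventually.of_forall fun ω => ?_)
    rw [Real.norm_eq_abs, abs_of_nonneg (sq_nonneg _)]
    exact pow_le_pow_left₀ (h0 n ω) (hB ω) 2
  have hle : ∀ n ω, A.indicator (X n) ω ≤ X n ω := fun n ω =>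
    Set.indicator_le_self' (fun ω _ => h0 n ω) ω
  have hge : ∀ n ω, 0 ≤ A.indicator (X n) ω := fun n ω =>
    Set.indicator_nonneg (fun ω _ => h0 n ω) ω
  refine no_concentration P (fun n => A.indicator (X n)) (fun n => (hm n).indicator hAm) hge
    (fun n => (hb n).imp fun B hB ω => (hle n ω).trans (hB ω))
    (c := c - (C + (1 - P.real A)) / 2) (C := C) (by linarith) hC (fun n => ?_) (fun n => ?_)
    (Eventually.of_forall fun ω => ?_)
  · obtain ⟨B, hB⟩ := hb n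
    have i1 : Integrable (A.indicator (X n)) P := by
      refine Integrable.of_bound (C := B) ((hm n).indicator hAm).aestronglyMeasurable
        (Eventually.of_forall fun ω => ?_)
      rw [Real.norm_eq_abs, abs_of_nonneg (hge n ω)]
      exact (hle n ω).trans (hB ω)
    have i2 : Integrable (Aᶜ.indicator (fun _ => (1 : ℝ))) P :=
      (integrable_const 1).indicator hAm.compl
    have i3 : Integrable (fun ω => (X n ω ^ 2 + Aᶜ.indicator (fun _ => (1 : ℝ)) ω) / 2) P :=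
      ((hsq n).add i2).div_const 2
    have h3 : ∫ ω, X n ω ∂P ≤ ∫ ω, (A.indicator (X n) ω
        + (X n ω ^ 2 + Aᶜ.indicator (fun _ => (1 : ℝ)) ω) / 2) ∂P := by
      refine integral_mono_of_nonneg (Eventually.of_forall (h0 n)) (i1.add i3)
        (Eventually.of_forall fun ω => ?_)
      by_cases h : ω ∈ A
      · simp only [Set.indicator_of_mem h, Set.indicator_of_notMem (Set.notMem_compl_iff.2 h)]
        nlinarith [sq_nonneg (X n ω)]
      · simp only [Set.indicator_of_notMem h, Set.indicator_of_mem (Set.mem_compl h)]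
        nlinarith [sq_nonneg (X n ω - 1)]
    rw [integral_add i1 i3, integral_div, integral_add (hsq n) i2,
      integral_indicator_const _ hAm.compl, probReal_compl_eq_one_sub hAm, smul_eq_mul,
      mul_one] at h3
    linarith [h1 n, h2 n]
  · exact (integral_mono_of_nonneg (Eventually.of_forall fun ω => sq_nonneg _) (hsq n)
      (Eventually.of_forall fun ω => pow_le_pow_left₀ (hge n ω) (hle n ω) 2)).trans (h2 n)
  · by_cases h : ω ∈ A
    · simp only [Set.indicator_of_mem h]; exact h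
    · simp only [Set.indicator_of_notMem h]; exact tendsto_const_nhds

omit [MeasurableSpace Ω] in
lemma telescope {N : ℕ} (W : Fin 2 → ℝ → ℝ → Ω → ℝ) (i : Fin 2) (y : ℝ) (ω : Ω)
    (h0 : W i y 0 ω = 0) {q : Fin (N + 1) → ℝ} (hq : StrictMono q) (hq0 : q 0 = 0)
    (k : Fin (N + 1)) : W i y (q k) ω ^ 2
      ≤ q k * Fin.partialSum (fun m : Fin N => inc W i y (q m.castSucc) (q m.succ) ω ^ 2) k ∧
    0 ≤ Fin.partialSum (fun m : Fin N => inc W i y (q m.castSucc) (q m.succ) ω ^ 2) k := by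
  induction k using Fin.induction with
  | zero => simp [hq0, h0]
  | succ m ih =>
    rw [Fin.partialSum_succ]
    set S := Fin.partialSum (fun m : Fin N => inc W i y (q m.castSucc) (q m.succ) ω ^ 2) m.castSucc
    set z := inc W i y (q m.castSucc) (q m.succ) ω with hz
    set w := W i y (q m.castSucc) ω with hw
    obtain ⟨h1, h2⟩ := ih
    have hp : 0 ≤ q m.castSucc := hq0 ▸ hq.monotone (Fin.zero_le _)
    have hg : 0 < q m.succ - q m.castSucc := sub_pos.2 (hq Fin.castSucc_lt_succ)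
    set g := √(q m.succ - q m.castSucc) with hgd
    have hg0 : 0 < g := sqrt_pos.2 hg
    have hg2 : q m.succ = q m.castSucc + g ^ 2 := by rw [hgd, sq_sqrt hg.le]; ring
    have e : W i y (q m.succ) ω = w + z * g := by
      rw [hz, hw]
      unfold inc
      rw [← hgd]
      field_simp
      ring
    refine ⟨?_, by positivity⟩
    have h3 : 2 * w * z * g ≤ q m.castSucc * z ^ 2 + g ^ 2 * S := by
      refine (le_abs_self _).trans (abs_le_of_sq_le_sq' ?_ (by positivity)).2 |>.trans' le_rfl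
      rw [sq_abs]
      have h4 := mul_le_mul_of_nonneg_right h1 (sq_nonneg (z * g))
      nlinarith [sq_nonneg (q m.castSucc * z ^ 2 - g ^ 2 * S)]
    rw [e, hg2]
    nlinarith

lemma psum_le {N : ℕ} (f : Fin N → ℝ) (hf : ∀ m, 0 ≤ f m) (k : Fin (N + 1)) :
    Fin.partialSum f k ≤ ∑ m, f m := by
  have h1 : Monotone (Fin.partialSum f) := Fin.monotone_iff_le_succ.2 fun m => by
    rw [Fin.partialSum_succ]; linarith [hf m]
  refine (h1 (Fin.le_last k)).trans (le_of_eq ?_)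
  unfold Fin.partialSum
  rw [List.take_of_length_le (by simp), List.sum_ofFn]

omit [MeasurableSpace Ω] in
lemma HH'_le {N : ℕ} (W : Fin 2 → ℝ → ℝ → Ω → ℝ) {ℓ : Fin N → ℕ}
    (hℓ : IsTree ℓ) (Y : ℝ) (v : ℝ≥0) (θ : ℝ × (Fin N → ℝ)) (ω : Ω)
    (h0 : ∀ i y, W i y 0 ω = 0) {δ : ℝ} (i : Fin 2) (k : Fin (N + 1))
    (h : δ ≤ W i (Y * cl θ.1) (pins ℓ θ.2 k) ω ^ 2) : HH' W ℓ Y v θ ω ≤ exp (-(v * (δ / 2)) / 2) := by
  obtain ⟨h1, h2⟩ := telescope W i (Y * cl θ.1) ω (h0 _ _) (pins_mono ℓ θ.2) (pins_zero ℓ θ.2) k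
  have h3 := psum_le (fun m : Fin N =>
    inc W i (Y * cl θ.1) (pins ℓ θ.2 m.castSucc) (pins ℓ θ.2 m.succ) ω ^ 2) (fun m => sq_nonneg _) k
  have h4 := ((pins_mono ℓ θ.2).monotone (Fin.le_last k)).trans (pins_last hℓ θ.2)
  have h5 := mul_le_mul_of_nonneg_right h4 h2
  unfold HH' mol
  simp_rw [← exp_sum]
  rw [exp_le_exp]
  simp_rw [← sum_div, sum_neg_distrib, ← mul_sum]
  have h6 : ∑ m : Fin N, inc W i (Y * cl θ.1) (pins ℓ θ.2 m.castSucc) (pins ℓ θ.2 m.succ) ω ^ 2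
      ≤ ∑ m : Fin N, ∑ j : Fin 2,
        inc W j (Y * cl θ.1) (pins ℓ θ.2 m.castSucc) (pins ℓ θ.2 m.succ) ω ^ 2 :=
    sum_le_sum fun m _ => single_le_sum (f := fun j : Fin 2 =>
      inc W j (Y * cl θ.1) (pins ℓ θ.2 m.castSucc) (pins ℓ θ.2 m.succ) ω ^ 2)
      (fun j _ => sq_nonneg _) (mem_univ i)
  have h7 := mul_le_mul_of_nonneg_left (show δ / 2 ≤ ∑ m : Fin N, ∑ j : Fin 2,
    inc W j (Y * cl θ.1) (pins ℓ θ.2 m.castSucc) (pins ℓ θ.2 m.succ) ω ^ 2 by linarith) v.coe_nonneg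
  linarith

/-- Almost surely one slice carries a separated tree of zeros. -/
theorem tree_of_zeros (P : Measure Ω) [IsProbabilityMeasure P] {W : Fin 2 → ℝ → ℝ → Ω → ℝ}
    (hm : ∀ i, Measurable (fun z : (ℝ × ℝ) × Ω => W i z.1.1 z.1.2 z.2)) (hl : Law P W)
    (h0 : ∀ i y ω, W i y 0 ω = 0) (f : Ω → Fin 2 → ℝ × ℝ → ℝ) (hf : ∀ ω i, Continuous (f ω i))
    (hW : ∀ ω i y t, 0 < t → W i y t ω = f ω i (y, t)) :
    ∀ᵐ ω ∂P, ∃ y : ℝ, ∃ t : (ℕ → Bool) → ℝ, (∀ w, 0 < t w) ∧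
      (∀ w w' j, w j ≠ w' j → exp (-(2 * aw (j + 1))) ≤ |t w - t w'|) ∧
      ∀ w i, f ω i (y, t w) = 0 := by
  choose ℓ idx hℓ0 hℓ' hidx hsep using tree
  rw [ae_iff, ← measureReal_eq_zero_iff (measure_ne_top _ _)]
  have hlim : Tendsto (fun n : ℕ => 18 * (1 / ((n : ℝ) + 1))) atTop (𝓝 0) := by
    simpa using (tendsto_one_div_add_atTop_nhds_zero_nat (𝕜 := ℝ)).const_mul 18
  refine le_antisymm (ge_of_tendsto' hlim fun b => ?_) measureReal_nonneg
  have hb0 : (0 : ℝ) < (b : ℝ) + 1 := by positivity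
  set Y : ℝ := ((b : ℝ) + 1) ^ 2 with hY
  set v : ℕ → ℝ≥0 := fun k => (((2 ^ k + b : ℕ) : ℝ≥0) + 1) ^ 2 with hv
  have hv0 : ∀ k, v k ≠ 0 := fun k => by simp only [hv]; positivity
  have hvc : ∀ k, (v k : ℝ) = (((2 ^ k + b : ℕ) : ℝ) + 1) ^ 2 := fun k => by simp [hv]
  set X : ℕ → Ω → ℝ := fun k ω => (v k : ℝ) ^ (2 ^ k) *
    ∫ θ, HH' W (fun m : Fin (2 ^ k) => ℓ k m) Y (v k) θ ω ∂(mu (2 ^ k)) with hX
  have hXm : ∀ k, Measurable (X k) := fun k => measurable_const.mul (HH'_int_meas hm _ _ _)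
  have hX0 : ∀ k ω, 0 ≤ X k ω := fun k ω =>
    mul_nonneg (by positivity) (integral_nonneg fun θ => mol_nonneg _ _ _ _ _ _)
  refine le_trans (measureReal_mono (s₂ := {ω | Tendsto (fun k => X k ω) atTop (𝓝 0)})
    (fun ω hω => ?_) (measure_ne_top _ _)) ?_
  swap
  · refine (prob_tendsto P X hXm hX0 (fun k => ⟨(v k : ℝ) ^ (2 ^ k) * 1, fun ω => ?_⟩)
      (c := 1 - 1 / ((b : ℝ) + 1)) (C := 1 + 16 / ((b : ℝ) + 1)) (by positivity)
      (fun k => le_trans ?_ (first_mom P hm hl _ Y (hv0 k)))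
      (fun k => second_mom P hm hl (hℓ' k) hb0 (hv0 k))).trans (le_of_eq (by ring))
    · exact mul_le_mul_of_nonneg_left (integral_unit_le _ (fun θ => mol_nonneg _ _ _ _ _ _)
        fun θ => mol_le_one _ _ _ _ _ _) (by positivity)
    · have h1 : ((2 ^ k : ℕ) : ℝ) / v k ≤ 1 / ((b : ℝ) + 1) := by
        rw [hvc, div_le_div_iff₀ (by positivity) hb0, Nat.cast_add]
        nlinarith [Nat.cast_nonneg (α := ℝ) (2 ^ k)]
      linarith [add_one_le_exp (-(((2 ^ k : ℕ) : ℝ) / v k))]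
  · obtain ⟨n, hn⟩ := compact_gap (f ω) (hf ω) Y (exp (-(2 * aw 0)))
      (fun j => exp (-(2 * aw (j + 1)))) (fun ⟨y, _, t, h1, h2⟩ =>
        hω ⟨y, t, fun w => (exp_pos _).trans_le (h1 w).1, h2⟩)
    have hd := (decay (δ := 1 / ((n : ℝ) + 1) / 2) (by positivity)).comp
      ((tendsto_add_atTop_nat b).comp
        (tendsto_pow_atTop_atTop_of_one_lt (show 1 < 2 by norm_num)))
    refine squeeze_zero' (Eventually.of_forall fun k => hX0 k ω) ?_ hd
    filter_upwards [eventually_ge_atTop n] with k hk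
    simp only [Function.comp, hX]
    rw [← hvc]
    refine mul_le_mul (pow_le_pow_right₀ (by
        rw [hvc]
        exact one_le_pow₀ (by linarith [Nat.cast_nonneg (α := ℝ) (2 ^ k + b)]))
      (Nat.le_add_right _ _))
      (integral_unit_le _ (fun θ => mol_nonneg _ _ _ _ _ _) fun θ => ?_)
      (integral_nonneg fun θ => mol_nonneg _ _ _ _ _ _) (by positivity)
    set L : Fin (2 ^ k) → ℕ := fun m => ℓ k m with hL
    have hmono := pins_mono L θ.2
    have hlow : ∀ w, exp (-(2 * aw 0)) ≤ pins L θ.2 (Fin.succ ⟨idx k w, hidx k w⟩) := by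
      intro w
      have h1 := pins_sub L θ.2 ⟨0, by positivity⟩
      have h2 : pins L θ.2 (Fin.castSucc ⟨0, by positivity⟩) = 0 := pins_zero L θ.2
      have h3 := le_gap (aw_pos (L ⟨0, by positivity⟩)) (θ.2 ⟨0, by positivity⟩)
      have h4 := hmono.monotone (Fin.succ_le_succ_iff.2
        (show (⟨0, by positivity⟩ : Fin (2 ^ k)) ≤ ⟨idx k w, hidx k w⟩ from Nat.zero_le _))
      have h5 : L ⟨0, by positivity⟩ = 0 := hℓ0 k
      rw [h5] at h3 h1
      linarith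
    have hs : ∀ w w' j n0, ℓ k n0 ≤ j + 1 → idx k w < n0 → n0 ≤ idx k w' →
        exp (-(2 * aw (j + 1))) ≤ pins L θ.2 (Fin.succ ⟨idx k w', hidx k w'⟩)
          - pins L θ.2 (Fin.succ ⟨idx k w, hidx k w⟩) := by
      intro w w' j n0 h1 h2 h3
      have h4 : n0 < 2 ^ k := h3.trans_lt (hidx k w')
      have h5 := pins_sub L θ.2 ⟨n0, h4⟩
      have h6 := le_gap (aw_pos (L ⟨n0, h4⟩)) (θ.2 ⟨n0, h4⟩)
      have h7 := hmono.monotone (Fin.succ_le_succ_iff.2
        (show (⟨n0, h4⟩ : Fin (2 ^ k)) ≤ ⟨idx k w', hidx k w'⟩ from h3))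
      have h8 := hmono.monotone (Fin.succ_le_castSucc_iff.2
        (show (⟨idx k w, hidx k w⟩ : Fin (2 ^ k)) < ⟨n0, h4⟩ from h2))
      have h9 : exp (-(2 * aw (j + 1))) ≤ exp (-(2 * aw (L ⟨n0, h4⟩))) := by
        rw [exp_le_exp]
        have : aw (L ⟨n0, h4⟩) ≤ aw (j + 1) := aw_mono h1
        linarith
      linarith
    obtain ⟨w, i, hw⟩ := hn (Y * cl θ.1) ⟨mul_nonneg (by positivity) (cl_nonneg _),
      mul_le_of_le_one_right (by positivity) (cl_le_one _)⟩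
      (fun w => pins L θ.2 (Fin.succ ⟨idx k w, hidx k w⟩))
      (fun w => ⟨hlow w, (hmono.monotone (Fin.le_last _)).trans (pins_last (hℓ' k) θ.2)⟩)
      (fun w w' j hj hw => by
        obtain ⟨n0, h1, h2 | h2⟩ := hsep k w w' j (by omega) hw
        · exact (hs w w' j n0 h1 h2.1 h2.2).trans (by rw [abs_sub_comm]; exact le_abs_self _)
        · exact (hs w' w j n0 h1 h2.1 h2.2).trans (le_abs_self _))
    rw [← hW ω i _ _ ((exp_pos _).trans_le (hlow w))] at hw
    exact HH'_le W (hℓ' k) Y (v k) θ ω (fun i y => h0 i y ω) i _ hw.le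

theorem main_meas (Ω : Type) [MeasurableSpace Ω] (P : Measure Ω) [IsProbabilityMeasure P]
    (B : Fin 2 → ℝ → ℝ → Ω → ℝ) (hm : ∀ i s t, 0 ≤ s → 0 ≤ t → Measurable (B i s t))
    (hc : ∀ (i : Fin 2) (ω : Ω),
      ContinuousOn (fun p : ℝ × ℝ => B i p.1 p.2 ω) {p : ℝ × ℝ | 0 ≤ p.1 ∧ 0 ≤ p.2})
    (hl : ∀ (n : ℕ) (idx : Fin n → Fin 2) (s t c : Fin n → ℝ),
      (∀ k, 0 ≤ s k) → (∀ k, 0 ≤ t k) →
      P.map (fun ω => ∑ k, c k * B (idx k) (s k) (t k) ω) =
        gaussianReal 0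
          (∑ k, ∑ l, (if idx k = idx l then
            c k * c l * (min (s k) (s l) * min (t k) (t l)) else 0)).toNNReal) :
    ∀ᵐ ω ∂P, ∃ y : ℝ, ∃ t : (ℕ → Bool) → ℝ, (∀ w, 0 < t w) ∧
      (∀ w w' j, w j ≠ w' j → exp (-(2 * aw (j + 1))) ≤ |t w - t w'|) ∧
      ∀ w i, B i (exp y) (t w) ω = 0 := by
  set f : Ω → Fin 2 → ℝ × ℝ → ℝ := fun ω i z => exp (-z.1 / 2) * B i (exp z.1) (max z.2 0) ω
    with hfd
  have hf : ∀ ω i, Continuous (f ω i) := by
    intro ω i
    refine Continuous.mul (by fun_prop) ?_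
    exact (hc i ω).comp_continuous (f := fun z : ℝ × ℝ => (exp z.1, max z.2 0)) (by fun_prop)
      (fun z => ⟨(exp_pos _).le, le_max_right _ _⟩)
  set κ : ℝ → ℝ := fun t => if 0 < t then 1 else 0 with hκ
  have hκm : Measurable κ := Measurable.ite measurableSet_Ioi measurable_const measurable_const
  have h3 := tree_of_zeros P (W := fun i y t ω => κ t * f ω i (y, t))
    (fun i => (hκm.comp (measurable_snd.comp measurable_fst)).mul
      (measurable_uncurry_of_continuous_of_measurable (u := fun (z : ℝ × ℝ) ω => f ω i z)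
        (fun ω => hf ω i) (fun z => measurable_const.mul
          (hm _ _ _ (exp_pos _).le (le_max_right _ _)))))
    (by
      intro J _ idx y t c ht
      set e := (Fintype.equivFin J).symm with he
      have h := hl (Fintype.card J) (fun k => idx (e k)) (fun k => exp (y (e k)))
        (fun k => t (e k)) (fun k => c (e k) * (κ (t (e k)) * exp (-y (e k) / 2)))
        (fun k => (exp_pos _).le) (fun k => ht _)
      have hk : ∀ a b : ℝ, 0 ≤ a → 0 ≤ b → κ a * κ b * min a b = min a b := by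
        intro a b ha hb
        simp only [hκ]
        split_ifs with h1 h2
        · simp
        · rw [le_antisymm (not_lt.1 h2) hb, min_eq_right ha]; simp
        · rw [le_antisymm (not_lt.1 h1) ha, min_eq_left hb]; simp
        · rw [le_antisymm (not_lt.1 h1) ha, min_eq_left hb]; simp
      convert h using 2
      · funext ω
        rw [← e.sum_comp]
        refine sum_congr rfl fun k _ => ?_
        simp only [hfd, max_eq_left (ht _)]
        ring
      · rw [← e.sum_comp]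
        congr 1
        refine sum_congr rfl fun k _ => ?_
        rw [← e.sum_comp]
        refine sum_congr rfl fun l _ => ?_
        split_ifs with hkl
        · rw [← exp_min]
          conv_lhs => rw [← hk _ _ (ht (e k)) (ht (e l))]
          ring
        · rfl)
    (fun i y ω => by simp [hκ]) f hf (fun ω i y t ht => by simp [hκ, ht])
  filter_upwards [h3] with ω hω
  obtain ⟨y, t, h4, h5, h6⟩ := hω
  refine ⟨y, t, h4, h5, fun w i => ?_⟩
  have h7 := h6 w i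
  simp only [hfd, max_eq_left (h4 w).le] at h7
  exact (mul_eq_zero.1 h7).resolve_left (exp_pos _).ne'

/-- A continuous sheet agrees off a null set with one whose coordinates are measurable. -/
lemma modification {d : ℕ} (P : Measure Ω) (B : Fin d → ℝ → ℝ → Ω → ℝ)
    (hc : ∀ (i : Fin d) (ω : Ω),
      ContinuousOn (fun p : ℝ × ℝ => B i p.1 p.2 ω) {p : ℝ × ℝ | 0 ≤ p.1 ∧ 0 ≤ p.2})
    (ha : ∀ i s t, 0 ≤ s → 0 ≤ t → AEMeasurable (B i s t) P) :
    ∃ G : Set Ω, (∀ᵐ ω ∂P, ω ∈ G) ∧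
      ∀ i s t, 0 ≤ s → 0 ≤ t → Measurable (G.indicator (B i s t)) := by
  have hq : ∀ z : Fin d × ℕ × ℕ × ℕ, AEMeasurable
      (B z.1 (z.2.1 / ((z.2.2.2 : ℝ) + 1)) (z.2.2.1 / ((z.2.2.2 : ℝ) + 1))) P :=
    fun z => ha _ _ _ (by positivity) (by positivity)
  have h1 : ∀ᵐ ω ∂P, ∀ z : Fin d × ℕ × ℕ × ℕ,
      B z.1 (z.2.1 / ((z.2.2.2 : ℝ) + 1)) (z.2.2.1 / ((z.2.2.2 : ℝ) + 1)) ω = (hq z).mk _ ω :=
    ae_all_iff.2 fun z => (hq z).ae_eq_mk
  obtain ⟨N, hN, hNm, hN0⟩ := exists_measurable_superset_of_null (ae_iff.1 h1)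
  refine ⟨Nᶜ, compl_mem_ae_iff.2 hN0, fun i s t hs ht => ?_⟩
  have hlim : ∀ {a : ℝ}, 0 ≤ a →
      Tendsto (fun n : ℕ => (⌈a * ((n : ℝ) + 1)⌉₊ : ℝ) / ((n : ℝ) + 1)) atTop (𝓝 a) :=
    fun ha => (tendsto_nat_ceil_mul_div_atTop ha).comp
      (tendsto_atTop_add_const_right _ 1 tendsto_natCast_atTop_atTop)
  refine measurable_of_tendsto_metrizable (f := fun n : ℕ =>
    Nᶜ.indicator ((hq (i, ⌈s * ((n : ℝ) + 1)⌉₊, ⌈t * ((n : ℝ) + 1)⌉₊, n)).mk _))
    (fun n => (hq _).measurable_mk.indicator hNm.compl) (tendsto_pi_nhds.2 fun ω => ?_)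
  by_cases h : ω ∈ Nᶜ
  · simp only [Set.indicator_of_mem h]
    have h2 : ∀ z : Fin d × ℕ × ℕ × ℕ, B z.1 (z.2.1 / ((z.2.2.2 : ℝ) + 1))
        (z.2.2.1 / ((z.2.2.2 : ℝ) + 1)) ω = (hq z).mk _ ω := by
      by_contra h3
      exact h (hN h3)
    refine ((hc i ω (s, t) ⟨hs, ht⟩).tendsto.comp (f := fun n : ℕ =>
      ((⌈s * ((n : ℝ) + 1)⌉₊ : ℝ) / ((n : ℝ) + 1), (⌈t * ((n : ℝ) + 1)⌉₊ : ℝ) / ((n : ℝ) + 1)))
      ?_).congr fun n => h2 (i, ⌈s * ((n : ℝ) + 1)⌉₊, ⌈t * ((n : ℝ) + 1)⌉₊, n)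
    exact tendsto_nhdsWithin_iff.2 ⟨(hlim hs).prodMk_nhds (hlim ht),
      Eventually.of_forall fun n => ⟨by positivity, by positivity⟩⟩
  · simp only [Set.indicator_of_notMem h]
    exact tendsto_const_nhds

theorem main (Ω : Type) [MeasurableSpace Ω] (P : Measure Ω) [IsProbabilityMeasure P]
    (B : Fin 2 → ℝ → ℝ → Ω → ℝ)
    (hc : ∀ (i : Fin 2) (ω : Ω),
      ContinuousOn (fun p : ℝ × ℝ => B i p.1 p.2 ω) {p : ℝ × ℝ | 0 ≤ p.1 ∧ 0 ≤ p.2})
    (hl : ∀ (n : ℕ) (idx : Fin n → Fin 2) (s t c : Fin n → ℝ),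
      (∀ k, 0 ≤ s k) → (∀ k, 0 ≤ t k) →
      P.map (fun ω => ∑ k, c k * B (idx k) (s k) (t k) ω) =
        gaussianReal 0
          (∑ k, ∑ l, (if idx k = idx l then
            c k * c l * (min (s k) (s l) * min (t k) (t l)) else 0)).toNNReal) :
    ∀ᵐ ω ∂P, ∃ y : ℝ, ∃ t : (ℕ → Bool) → ℝ, (∀ w, 0 < t w) ∧
      (∀ w w' j, w j ≠ w' j → exp (-(2 * aw (j + 1))) ≤ |t w - t w'|) ∧
      ∀ w i, B i (exp y) (t w) ω = 0 := by
  obtain ⟨G, hG, hGm⟩ := modification P B hc (fun i s t hs ht => by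
    have h := hl 1 (fun _ => i) (fun _ => s) (fun _ => t) (fun _ => 1) (fun _ => hs) (fun _ => ht)
    simp only [Fin.sum_univ_one, one_mul] at h
    by_contra hn
    rw [Measure.map_of_not_aemeasurable hn] at h
    exact IsProbabilityMeasure.ne_zero _ h.symm)
  have h := main_meas Ω P (fun i s t => G.indicator (B i s t)) hGm
    (fun i ω => by
      by_cases h : ω ∈ G
      · simp only [Set.indicator_of_mem h]; exact hc i ω
      · simp only [Set.indicator_of_notMem h]; exact continuousOn_const)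
    (fun n idx s t c hs ht => by
      rw [← hl n idx s t c hs ht]
      refine Measure.map_congr ?_
      filter_upwards [hG] with ω hω
      simp only [Set.indicator_of_mem hω])
  filter_upwards [h, hG] with ω hω hω'
  simpa only [Set.indicator_of_mem hω'] using hω

end Pool.Agent.MP_ba6658_pr.Log
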